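import Pool.Agent.Lib.RibLI.A2

/-!
# A3 : a potential extends to an edge which is passed at most once

(helper72, problem MP_cf50d6_gt)
-/

set_option autoImplicit false

open scoped Classical

namespace Pool.Agent.RibLI

open Pool.Agent.LIA

universe u

/-- the values of a potential along a walk -/
theorem a3_pot_walk {V S G : Type*} [Group G] {Γ : LG V S} (g : S → G) (h : V → G)
    (hh : ∀ u s v, (u, s, v) ∈ Γ.F → h v = h u * g s) {L : List (S × Bool)} {u v : V}
    (hL : Γ.Walk u L v) : h v = h u * FreeGroup.lift g (FreeGroup.mk L) := by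
  induction L generalizing u with
  | nil =>
    obtain rfl := hL
    rw [← FreeGroup.one_eq_mk, map_one, mul_one]
  | cons l L ih =>
    obtain ⟨c, h1, h2⟩ := hL
    rw [ih h2, mk_cons, map_mul, ← mul_assoc]
    congr 1
    obtain ⟨s, b⟩ := l
    cases b
    · rw [LG.step_false] at h1
      rw [lv_false, map_inv, eq_mul_inv_iff_mul_eq, FreeGroup.lift_apply_of]
      exact (hh _ _ _ h1).symm
    · rw [LG.step_true] at h1
      rw [lv_true, FreeGroup.lift_apply_of]
      exact hh _ _ _ h1

-- A3
theorem pot_del {V S Z G : Type*} [Group G] {Γ : LG V S} {rel : Z → List (S × Bool)}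
    {f : V × S × V} (hA : Γ.Acy rel) (hf : f ∈ Γ.F)
    (h1 : ∀ p p', Pass Γ rel f p → Pass Γ rel f p' → p = p') (g : S → G)
    (hg : ∀ z, FreeGroup.lift g (FreeGroup.mk (rel z)) = 1)
    (h' : V → G) (hh' : ∀ u s v, (u, s, v) ∈ (del Γ f).F → h' v = h' u * g s) :
    ∃ h : V → G, ∀ u s v, (u, s, v) ∈ Γ.F → h v = h u * g s := by
  rcases a2_pass_cases h1 with h | ⟨v₀, z₀, A, l, B, x, y, h2, h3, h4, h5, h6, h7⟩
  · obtain ⟨k, hk⟩ := hA (fun e => if e = f then 1 else 0) (by
      intro v z hv
      rw [a2_trSum_upd (fun _ => 0) 1 (h v z hv)]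
      have h8 := LG.trSum_smul Γ 0 (fun _ => 0) v (rel z)
      rw [zero_mul] at h8
      simpa using h8)
    obtain ⟨u₀, s₀, w₀⟩ := f
    have hk1 : k w₀ ≠ k u₀ := by
      have h8 := hk u₀ s₀ w₀ hf
      simp only [if_true] at h8
      intro h9
      rw [h9, sub_self] at h8
      exact one_ne_zero h8
    refine ⟨fun x => (if k x = k w₀ then h' u₀ * g s₀ * (h' w₀)⁻¹ else 1) * h' x, ?_⟩
    intro u s v huv
    by_cases he : (u, s, v) = (u₀, s₀, w₀)
    · obtain ⟨rfl, he'⟩ := Prod.mk.inj he
      obtain ⟨rfl, rfl⟩ := Prod.mk.inj he'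
      simp only [if_true]
      rw [if_neg (Ne.symm hk1)]
      group
    · have h8 := hk u s v huv
      rw [if_neg he] at h8
      have h9 : k v = k u := by linarith
      simp only [h9]
      rw [hh' u s v (a2_mem_del.2 ⟨he, huv⟩)]
      exact (mul_assoc _ _ _).symm
  · refine ⟨h', ?_⟩
    have h8 := a3_pot_walk g h' hh' h3
    have h9 := a3_pot_walk g h' hh' h6
    have h10 := hg z₀
    rw [h2, mk_append, map_mul, mk_cons, map_mul] at h10
    have h11 : h' y = h' x * FreeGroup.lift g (lv l) := by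
      have h12 : (FreeGroup.lift g (FreeGroup.mk B))⁻¹ =
          FreeGroup.lift g (FreeGroup.mk A) * FreeGroup.lift g (lv l) := by
        rw [← mul_assoc] at h10
        exact (eq_inv_of_mul_eq_one_left h10).symm
      rw [h8, mul_assoc, ← h12, h9, mul_inv_cancel_right]
    intro u s v huv
    by_cases he : (u, s, v) = f
    · obtain ⟨s', b⟩ := l
      cases b
      · simp only [edg, Bool.false_eq_true, if_false] at h5
        rw [← h5] at he
        obtain ⟨rfl, he'⟩ := Prod.mk.inj he
        obtain ⟨rfl, rfl⟩ := Prod.mk.inj he'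
        rw [lv_false, map_inv, FreeGroup.lift_apply_of] at h11
        rw [h11, inv_mul_cancel_right]
      · simp only [edg, if_true] at h5
        rw [← h5] at he
        obtain ⟨rfl, he'⟩ := Prod.mk.inj he
        obtain ⟨rfl, rfl⟩ := Prod.mk.inj he'
        rw [lv_true, FreeGroup.lift_apply_of] at h11
        exact h11
    · exact hh' u s v (a2_mem_del.2 ⟨he, huv⟩)

end Pool.Agent.RibLI
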