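import Pool.Agent.Lib.RibLI.A1
import Pool.Agent.Lib.RibLI.A3

/-!
# A4 : a presentation whose graphs without free faces are large is locally indicable

(helper72, problem MP_cf50d6_gt)
-/

set_option autoImplicit false

open scoped Classical

namespace Pool.Agent.RibLI

open Pool.Agent.LIA

universe u

/-- a homomorphism to the rationals from a finitely generated group without homomorphisms onto the
integers is trivial -/
private theorem A4_hom_rat {H : Type*} [Group H] (hH : Group.FG H)
    (hno : ¬ ∃ f : H →* Multiplicative ℤ, Function.Surjective f)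
    (f : H →* Multiplicative ℚ) : ∀ h, f h = 1 := by
  by_contra hcon
  push Not at hcon
  obtain ⟨h1, hh1⟩ := hcon
  obtain ⟨T, hT⟩ := Group.fg_def.1 hH
  set D : ℤ := ∏ t ∈ T, ((f t).toAdd.den : ℤ) with hD
  have hD0 : D ≠ 0 := by
    rw [hD]
    exact Finset.prod_ne_zero_iff.2 fun t _ => by exact_mod_cast (f t).toAdd.den_nz
  have hint : ∀ h : H, ∃ m : ℤ, (D : ℚ) * (f h).toAdd = m := by
    intro h
    have hmem : h ∈ Subgroup.closure (T : Set H) := by rw [hT]; trivial
    induction hmem using Subgroup.closure_induction with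
    | mem x hx =>
      have h1 : ((f x).toAdd.den : ℤ) ∣ D := Finset.dvd_prod_of_mem _ hx
      obtain ⟨c, hc⟩ := h1
      refine ⟨c * (f x).toAdd.num, ?_⟩
      rw [hc]
      push_cast
      have h2 : ((f x).toAdd.den : ℚ) * (f x).toAdd = (f x).toAdd.num := by
        rw [mul_comm]
        exact Rat.mul_den_eq_num _
      calc ((f x).toAdd.den : ℚ) * (c : ℚ) * (f x).toAdd
          = c * (((f x).toAdd.den : ℚ) * (f x).toAdd) := by ring
        _ = c * ((f x).toAdd.num : ℚ) := by rw [h2]
    | one => exact ⟨0, by simp⟩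
    | mul x y _ _ hx hy =>
      obtain ⟨a, ha⟩ := hx
      obtain ⟨b, hb⟩ := hy
      refine ⟨a + b, ?_⟩
      rw [map_mul, toAdd_mul, mul_add, ha, hb]
      push_cast
      rfl
    | inv x _ hx =>
      obtain ⟨a, ha⟩ := hx
      refine ⟨-a, ?_⟩
      rw [map_inv, toAdd_inv, mul_neg, ha]
      push_cast
      rfl
  -- the subgroup of all values
  let K : AddSubgroup ℤ :=
    { carrier := {m | ∃ h : H, (D : ℚ) * (f h).toAdd = m}
      zero_mem' := ⟨1, by simp⟩
      add_mem' := by
        rintro a b ⟨x, hx⟩ ⟨y, hy⟩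
        refine ⟨x * y, ?_⟩
        rw [map_mul, toAdd_mul, mul_add, hx, hy]
        push_cast
        rfl
      neg_mem' := by
        rintro a ⟨x, hx⟩
        refine ⟨x⁻¹, ?_⟩
        rw [map_inv, toAdd_inv, mul_neg, hx]
        push_cast
        rfl }
  obtain ⟨a, ha⟩ := Int.subgroup_cyclic K
  have ha' : K = AddSubgroup.zmultiples a := by
    rw [ha, AddSubgroup.zmultiples_eq_closure]
  have haK : a ∈ K := by
    rw [ha']
    exact AddSubgroup.mem_zmultiples a
  have hk : ∀ h : H, ∃ k : ℤ, (D : ℚ) * (f h).toAdd = k * a := by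
    intro h
    obtain ⟨m, hm⟩ := hint h
    have h2 : m ∈ K := ⟨h, hm⟩
    rw [ha', AddSubgroup.mem_zmultiples_iff] at h2
    obtain ⟨k, hk⟩ := h2
    refine ⟨k, ?_⟩
    rw [hm, ← hk]
    simp
  have ha0 : a ≠ 0 := by
    rintro rfl
    obtain ⟨k, hk⟩ := hk h1
    rw [Int.cast_zero, mul_zero] at hk
    rcases mul_eq_zero.1 hk with h3 | h3
    · exact hD0 (by exact_mod_cast h3)
    · exact hh1 (by simpa using h3)
  have haQ : (a : ℚ) ≠ 0 := by exact_mod_cast ha0
  choose k hk using hk
  apply hno
  refine ⟨MonoidHom.mk' (fun h => Multiplicative.ofAdd (k h)) ?_, ?_⟩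
  · intro x y
    rw [← ofAdd_add]
    congr 1
    have h3 := hk (x * y)
    rw [map_mul, toAdd_mul, mul_add, hk x, hk y, ← add_mul] at h3
    have h4 := mul_right_cancel₀ haQ h3
    exact_mod_cast h4.symm
  · obtain ⟨h0, hh0⟩ := haK
    intro m
    refine ⟨h0 ^ m.toAdd, ?_⟩
    change Multiplicative.ofAdd (k (h0 ^ m.toAdd)) = m
    have h3 := hk (h0 ^ m.toAdd)
    rw [map_zpow, toAdd_zpow, zsmul_eq_mul] at h3
    have h4 : (k (h0 ^ m.toAdd) : ℚ) * a = (m.toAdd : ℚ) * a := by
      rw [← h3, ← hh0]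
      ring
    have h5 := mul_right_cancel₀ haQ h4
    have h6 : k (h0 ^ m.toAdd) = m.toAdd := by exact_mod_cast h5
    rw [h6]
    rfl

private theorem A4_mk_toWord {S : Type*} (inst : DecidableEq S) (x : FreeGroup S) :
    FreeGroup.mk (@FreeGroup.toWord S inst x) = x := @FreeGroup.mk_toWord S inst x

/-- the collapse: an acyclic graph has a potential -/
theorem a4_pot_of_nofree {S : Type u} {Z : Type*} [Fintype Z] (rel : Z → List (S × Bool))
    (h : ∀ (V : Type u) [Fintype V] (Γ : LG V S), Γ.F.Nonempty → NoFree Γ rel →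
      (polys Γ rel).card + (supp Γ).card ≤ Γ.F.card) {G : Type*} [Group G] (g : S → G)
    (hg : ∀ z, FreeGroup.lift g (FreeGroup.mk (rel z)) = 1) {V : Type u} [Fintype V] (n : ℕ) :
    ∀ Γ : LG V S, Γ.F.card = n → Γ.Acy rel →
      ∃ φ : V → G, ∀ u s v, (u, s, v) ∈ Γ.F → φ v = φ u * g s := by
  induction n with
  | zero =>
    intro Γ hn _
    rw [Finset.card_eq_zero] at hn
    exact ⟨fun _ => 1, fun u s v huv => absurd huv (by rw [hn]; exact Finset.notMem_empty _)⟩
  | succ n ih =>
    intro Γ hn hA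
    have hne : Γ.F.Nonempty := by
      rw [← Finset.card_pos, hn]
      exact Nat.succ_pos n
    have hnf : ¬ NoFree Γ rel := by
      intro hnf
      have h1 := h V Γ hne hnf
      have h2 := acy_card_supp hA hne
      omega
    unfold NoFree at hnf
    push Not at hnf
    obtain ⟨f, hf, hf1⟩ := hnf
    have h1 : ∀ p p', Pass Γ rel f p → Pass Γ rel f p' → p = p' := by
      intro p p' hp hp'
      by_contra hpp
      exact hf1 p p' hpp hp hp'
    have hcard : (del Γ f).F.card = n := by
      change (Γ.F.erase f).card = n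
      rw [Finset.card_erase_of_mem hf, hn, Nat.add_sub_cancel]
    obtain ⟨φ, hφ⟩ := ih (del Γ f) hcard (acy_del hA hf h1)
    exact pot_del hA hf h1 g hg φ hφ

-- A4
theorem li_of_nofree {S : Type u} {Z : Type*} [Fintype Z] (rel : Z → List (S × Bool))
    (h : ∀ (V : Type u) [Fintype V] (Γ : LG V S), Γ.F.Nonempty → NoFree Γ rel →
      (polys Γ rel).card + (supp Γ).card ≤ Γ.F.card) :
    LocallyIndicable (PresentedGroup (Set.range fun z => FreeGroup.mk (rel z))) := by
  set R : Set (FreeGroup S) := Set.range fun z => FreeGroup.mk (rel z) with hR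
  intro H hH hne
  by_contra hno
  obtain ⟨T, hT⟩ := id hH
  let e := T.equivFin
  choose k hk using fun j : Fin T.card =>
    PresentedGroup.mk_surjective R ((e.symm j : PresentedGroup R))
  have hy : Subgroup.closure (Set.range fun j => PresentedGroup.mk R (k j)) = H := by
    rw [← hT]
    congr 1
    ext x
    constructor
    · rintro ⟨j, rfl⟩
      change PresentedGroup.mk R (k j) ∈ (T : Set (PresentedGroup R))
      rw [hk]
      exact (e.symm j).2
    · intro hx
      refine ⟨e ⟨x, hx⟩, ?_⟩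
      change PresentedGroup.mk R (k (e ⟨x, hx⟩)) = x
      rw [hk]
      simp
  have hHfg : Group.FG H := by
    rw [Group.fg_iff_subgroup_fg]
    exact hH
  have hnoR : ∀ f : Subgroup.closure (Set.range fun j => PresentedGroup.mk R (k j)) →*
      Multiplicative ℚ, ∀ h, f h = 1 := by
    rw [hy]
    exact fun f => A4_hom_rat hHfg hno f
  obtain ⟨V, _, Γ, o, hc, hAcy, hw⟩ := exists_graph_acy (PresentedGroup.mk R) rel
    (by
      intro x hx
      exact PresentedGroup.mk_eq_one_iff.1 hx) k hnoR
  have hlift : ∀ x : FreeGroup S, FreeGroup.lift (fun s => PresentedGroup.mk R (FreeGroup.of s)) x =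
      PresentedGroup.mk R x := by
    intro x
    have h1 : FreeGroup.lift (fun s => PresentedGroup.mk R (FreeGroup.of s)) =
        PresentedGroup.mk R := by
      refine FreeGroup.ext_hom _ _ fun s => ?_
      rw [FreeGroup.lift_apply_of]
    rw [h1]
  obtain ⟨φ, hφ⟩ := a4_pot_of_nofree rel h (fun s => PresentedGroup.mk R (FreeGroup.of s))
    (by
      intro z
      rw [hlift]
      exact PresentedGroup.one_of_mem ⟨z, rfl⟩) Γ.F.card Γ rfl hAcy
  apply hne
  rw [← hy, Subgroup.closure_eq_bot_iff]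
  rintro _ ⟨j, rfl⟩
  have h2 := a3_pot_walk _ φ hφ (hw j)
  rw [A4_mk_toWord, hlift] at h2
  exact left_eq_mul.1 h2

end Pool.Agent.RibLI
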