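import Pool.Agent.Lib.RibLI.Defs

/-!
# Generic ribbon disc groups : module B1

(problem MP_cf50d6_gt; paper MP_cf50d6_gt_rib50.md)
-/

set_option autoImplicit false

open scoped Classical

namespace Pool.Agent.RibLI

open Pool.Agent.LIA

universe u

private theorem b1_rdc_cons {X : Type*} (a b : X × Bool) (v : List (X × Bool)) :
    Rdc (a :: b :: v) ↔ b ≠ linv a ∧ Rdc (b :: v) := by
  constructor
  · intro h
    refine ⟨h 0 a b (by simp) (by simp), fun s x y hx hy => h (s + 1) x y ?_ ?_⟩
    · simpa using hx
    · simpa using hy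
  · rintro ⟨h1, h2⟩ s x y hx hy
    cases s with
    | zero =>
      simp at hx hy
      subst hx hy
      exact h1
    | succ s =>
      refine h2 s x y ?_ ?_
      · simpa using hx
      · simpa using hy

private theorem b1_rdc_single {X : Type*} (a : X × Bool) : Rdc [a] := by
  intro s x y hx hy
  simp at hy

private theorem b1_rdc_nil {X : Type*} : Rdc ([] : List (X × Bool)) := by
  intro s x y hx hy
  simp at hy

private theorem b1_card_bi {X : Type*} [Fintype X] (A : Finset (X × Bool)) (r n : ℕ)
    (h : ∀ b : X × Bool, (ext b r).card = n) :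
    (A.biUnion fun b => (ext b r).image (List.cons b)).card = A.card * n := by
  rw [Finset.card_biUnion]
  · rw [Finset.sum_congr rfl (g := fun _ => n)]
    · simp
    · intro b _
      rw [Finset.card_image_of_injective _ (List.cons_injective), h]
  · intro b _ c _ hbc
    rw [Function.onFun, Finset.disjoint_left]
    intro v hv hv'
    simp only [Finset.mem_image] at hv hv'
    obtain ⟨x, _, rfl⟩ := hv
    obtain ⟨y, _, h2⟩ := hv'
    exact hbc (List.cons.inj h2).1.symm

theorem card_ext {X : Type*} [Fintype X] (a : X × Bool) (r : ℕ) :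
    (ext a r).card = (2 * Fintype.card X - 1) ^ r := by
  induction r generalizing a with
  | zero => simp [ext]
  | succ r ih =>
    rw [ext, b1_card_bi _ r _ ih, pow_succ, mul_comm]
    congr 1
    rw [Finset.filter_ne' Finset.univ (linv a), Finset.card_erase_of_mem (Finset.mem_univ _)]
    simp [mul_comm]

theorem card_RW (X : Type*) [Fintype X] (r : ℕ) :
    (RW X (r + 1)).card = 2 * Fintype.card X * (2 * Fintype.card X - 1) ^ r := by
  rw [RW, b1_card_bi _ r _ (fun b => card_ext b r)]
  congr 1
  simp [mul_comm]

theorem mem_ext {X : Type*} [Fintype X] (a : X × Bool) (r : ℕ) (u : List (X × Bool)) :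
    u ∈ ext a r ↔ u.length = r ∧ Rdc (a :: u) := by
  induction r generalizing a u with
  | zero =>
    simp only [ext, Finset.mem_singleton, List.length_eq_zero_iff]
    constructor
    · rintro rfl
      exact ⟨rfl, b1_rdc_single a⟩
    · exact fun h => h.1
  | succ r ih =>
    simp only [ext, Finset.mem_biUnion, Finset.mem_filter, Finset.mem_univ, true_and,
      Finset.mem_image]
    constructor
    · rintro ⟨b, hb, v, hv, rfl⟩
      rw [ih] at hv
      exact ⟨by simp [hv.1], (b1_rdc_cons a b v).2 ⟨hb, hv.2⟩⟩
    · rintro ⟨h1, h2⟩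
      cases u with
      | nil => simp at h1
      | cons b v =>
        rw [b1_rdc_cons] at h2
        exact ⟨b, h2.1, v, (ih b v).2 ⟨by simpa using h1, h2.2⟩, rfl⟩

theorem mem_RW {X : Type*} [Fintype X] (r : ℕ) (u : List (X × Bool)) :
    u ∈ RW X r ↔ u.length = r ∧ Rdc u := by
  cases r with
  | zero =>
    simp only [RW, Finset.mem_singleton, List.length_eq_zero_iff]
    constructor
    · rintro rfl
      exact ⟨rfl, b1_rdc_nil⟩
    · exact fun h => h.1
  | succ r =>
    simp only [RW, Finset.mem_biUnion, Finset.mem_univ, true_and, Finset.mem_image]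
    constructor
    · rintro ⟨b, v, hv, rfl⟩
      rw [mem_ext] at hv
      exact ⟨by simp [hv.1], hv.2⟩
    · rintro ⟨h1, h2⟩
      cases u with
      | nil => simp at h1
      | cons b v => exact ⟨b, v, (mem_ext b r v).2 ⟨by simpa using h1, h2⟩, rfl⟩

end Pool.Agent.RibLI
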