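import Pool.Agent.Lib.RibLI.Defs
import Pool.Agent.Lib.RibLI.B1

/-!
# Generic ribbon disc groups : module B2

(problem MP_cf50d6_gt; paper MP_cf50d6_gt_rib50.md)
-/

set_option autoImplicit false

open scoped Classical

namespace Pool.Agent.RibLI

open Pool.Agent.LIA

universe u

theorem card_rd_le {V X : Type*} [Fintype X] (Γ : XG V X) (y : V) (b : X × Bool)
    (hb : Γ.av y (linv b)) (h2 : Γ.deg y = 2) (r : ℕ) :
    ((ext b (r + 1)).filter fun u => Γ.RdL y u).card ≤ (2 * Fintype.card X - 1) ^ r := by
  have hc : ∃ c : X × Bool, ∀ l, Γ.av y l → l ≠ linv b → l = c := by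
    unfold XG.deg at h2
    obtain ⟨p, q, _, hpq⟩ := Finset.card_eq_two.1 h2
    have hm : ∀ l, Γ.av y l → l = p ∨ l = q := by
      intro l hl
      have : l ∈ (Finset.univ.filter fun l => Γ.av y l) := by simp [hl]
      rw [hpq] at this
      simpa using this
    rcases hm _ hb with h | h
    · refine ⟨q, fun l hl hne => ?_⟩
      rcases hm l hl with h' | h'
      · exact absurd (h'.trans h.symm) hne
      · exact h'
    · refine ⟨p, fun l hl hne => ?_⟩
      rcases hm l hl with h' | h'
      · exact h'
      · exact absurd (h'.trans h.symm) hne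
  obtain ⟨c, hc⟩ := hc
  calc ((ext b (r + 1)).filter fun u => Γ.RdL y u).card
      ≤ ((ext c r).image (List.cons c)).card := by
        apply Finset.card_le_card
        intro u hu
        simp only [Finset.mem_filter, ext, Finset.mem_biUnion, Finset.mem_univ, true_and,
          Finset.mem_image] at hu ⊢
        obtain ⟨⟨d, hd, v, hv, rfl⟩, hrd⟩ := hu
        have hdc : d = c := hc d hrd.1 hd
        subst hdc
        exact ⟨v, hv, rfl⟩
    _ ≤ (ext c r).card := Finset.card_image_le
    _ = (2 * Fintype.card X - 1) ^ r := card_ext c r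

end Pool.Agent.RibLI
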