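import Pool.Agent.Lib.RibLI.Defs

/-!
# Generic ribbon disc groups : module B3

(helper50, problem MP_cf50d6_gt; paper MP_cf50d6_gt_rib50.md)

Walks which pass through vertices of degree 2 are determined backwards and forwards by one letter.
-/

set_option autoImplicit false

open scoped Classical

namespace Pool.Agent.RibLI

open Pool.Agent.LIA

universe u

/-- at a vertex of degree 2 there are only two letters -/
private theorem b3_two {V X : Type*} [Fintype X] (G : XG V X) {p : V} (h : G.deg p = 2)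
    {a b l : X × Bool} (hab : a ≠ b) (ha : G.av p a) (hb : G.av p b) (hl : G.av p l) :
    l = a ∨ l = b := by
  by_contra hc
  rw [not_or] at hc
  obtain ⟨h1, h2⟩ := hc
  have hs : ({a, b, l} : Finset (X × Bool)) ⊆ Finset.univ.filter fun l => G.av p l := by
    intro z hz
    rw [Finset.mem_insert, Finset.mem_insert, Finset.mem_singleton] at hz
    rw [Finset.mem_filter]
    refine ⟨Finset.mem_univ _, ?_⟩
    rcases hz with rfl | rfl | rfl
    · exact ha
    · exact hb
    · exact hl
  have h3 := Finset.card_le_card hs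
  have h4 : ({a, b, l} : Finset (X × Bool)).card = 3 := by
    rw [Finset.card_eq_three]
    exact ⟨a, b, l, hab, fun h => h1 h.symm, fun h => h2 h.symm, rfl⟩
  unfold XG.deg at h
  omega

private theorem b3_linv {X : Type*} {a b : X × Bool} (h : linv a = linv b) : a = b := by
  rw [← linv_linv a, h, linv_linv]

/-- at a vertex of degree 2 the other letter is determined -/
private theorem b3_other {V X : Type*} [Fintype X] (G : XG V X) {p : V} (h : G.deg p = 2)
    {a b c : X × Bool} (ha : G.av p a) (hb : G.av p b) (hc : G.av p c) (hab : a ≠ b) (hac : a ≠ c) :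
    b = c := by
  rcases b3_two G h hab ha hb hc with h1 | h1
  · exact absurd h1.symm hac
  · exact h1.symm

theorem back_det {V X : Type*} [Fintype X] (Γ : XG V X) (w w' : ℕ → X × Bool) (v v' : V)
    (a a' s : ℕ) (hs : 1 ≤ s) (hv : Γ.run w v (a + s) = Γ.run w' v' (a' + s))
    (hl : w (a + s - 1) = w' (a' + s - 1))
    (hr : ∀ r < s, Γ.av (Γ.run w v (a + r)) (w (a + r)))
    (hr' : ∀ r < s, Γ.av (Γ.run w' v' (a' + r)) (w' (a' + r)))
    (hd : ∀ r, 1 ≤ r → r < s → w (a + r) ≠ linv (w (a + r - 1)))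
    (hd' : ∀ r, 1 ≤ r → r < s → w' (a' + r) ≠ linv (w' (a' + r - 1)))
    (h2 : ∀ r, 1 ≤ r → r < s → Γ.deg (Γ.run w v (a + r)) = 2) :
    Γ.run w v a = Γ.run w' v' a' ∧ ∀ r < s, w (a + r) = w' (a' + r) := by
  induction s with
  | zero => omega
  | succ k ih =>
    have hl' : w (a + k) = w' (a' + k) := hl
    have e1 := (Γ.back _ _ (hr k (Nat.lt_succ_self k))).2
    have e2 := (Γ.back _ _ (hr' k (Nat.lt_succ_self k))).2
    have e3 : Γ.nx (Γ.run w v (a + k)) (w (a + k)) = Γ.nx (Γ.run w' v' (a' + k)) (w' (a' + k)) := hv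
    have e4 : Γ.run w v (a + k) = Γ.run w' v' (a' + k) := by
      rw [← e1, ← e2, e3, hl']
    rcases Nat.eq_zero_or_pos k with rfl | hk
    · refine ⟨e4, fun r hr1 => ?_⟩
      obtain rfl : r = 0 := by omega
      exact hl'
    · obtain ⟨k', rfl⟩ : ∃ k', k = k' + 1 := ⟨k - 1, by omega⟩
      have hk1 : Γ.av (Γ.run w v (a + (k' + 1))) (linv (w (a + k'))) :=
        (Γ.back _ _ (hr k' (by omega))).1
      have hk2 : Γ.av (Γ.run w v (a + (k' + 1))) (linv (w' (a' + k'))) := by
        rw [e4]
        exact (Γ.back _ _ (hr' k' (by omega))).1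
      have hk3 : linv (w (a + k')) = linv (w' (a' + k')) := by
        refine b3_other Γ (h2 (k' + 1) (by omega) (by omega)) (hr (k' + 1) (by omega)) hk1 hk2 ?_ ?_
        · exact hd (k' + 1) (by omega) (by omega)
        · rw [hl']
          exact hd' (k' + 1) (by omega) (by omega)
      have h3 := ih (by omega) e4 (b3_linv hk3) (fun r h => hr r (by omega))
        (fun r h => hr' r (by omega)) (fun r h h' => hd r h (by omega))
        (fun r h h' => hd' r h (by omega)) (fun r h h' => h2 r h (by omega))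
      refine ⟨h3.1, fun r hr1 => ?_⟩
      rcases Nat.lt_succ_iff_lt_or_eq.1 hr1 with h4 | rfl
      · exact h3.2 r h4
      · exact hl'

theorem fwd_det {V X : Type*} [Fintype X] (Γ : XG V X) (w w' : ℕ → X × Bool) (v v' : V)
    (a a' s : ℕ) (hv : Γ.run w v a = Γ.run w' v' a') (hl : w a = w' a')
    (hr : ∀ r ≤ s, Γ.av (Γ.run w v (a + r)) (w (a + r)))
    (hr' : ∀ r ≤ s, Γ.av (Γ.run w' v' (a' + r)) (w' (a' + r)))
    (hd : ∀ r < s, w (a + r + 1) ≠ linv (w (a + r)))
    (hd' : ∀ r < s, w' (a' + r + 1) ≠ linv (w' (a' + r)))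
    (h2 : ∀ r, 1 ≤ r → r ≤ s → Γ.deg (Γ.run w v (a + r)) = 2) :
    (∀ r ≤ s, w (a + r) = w' (a' + r)) ∧ ∀ r ≤ s + 1, Γ.run w v (a + r) = Γ.run w' v' (a' + r) := by
  induction s with
  | zero =>
    refine ⟨fun r hr1 => ?_, fun r hr1 => ?_⟩
    · obtain rfl : r = 0 := by omega
      exact hl
    · rcases Nat.eq_zero_or_pos r with rfl | h
      · exact hv
      · obtain rfl : r = 1 := by omega
        change Γ.nx (Γ.run w v a) (w a) = Γ.nx (Γ.run w' v' a') (w' a')
        rw [hv, hl]
  | succ k ih =>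
    obtain ⟨i1, i2⟩ := ih (fun r h => hr r (by omega)) (fun r h => hr' r (by omega))
      (fun r h => hd r (by omega)) (fun r h => hd' r (by omega)) (fun r h h' => h2 r h (by omega))
    have e1 : Γ.run w v (a + (k + 1)) = Γ.run w' v' (a' + (k + 1)) := i2 (k + 1) (le_refl _)
    have b1 : Γ.av (Γ.run w v (a + (k + 1))) (linv (w (a + k))) :=
      (Γ.back _ _ (hr k (by omega))).1
    have b2 : Γ.av (Γ.run w v (a + (k + 1))) (w (a + (k + 1))) := hr (k + 1) (le_refl _)
    have b3 : Γ.av (Γ.run w v (a + (k + 1))) (w' (a' + (k + 1))) := by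
      rw [e1]
      exact hr' (k + 1) (le_refl _)
    have e2 : w (a + (k + 1)) = w' (a' + (k + 1)) := by
      refine b3_other Γ (h2 (k + 1) (by omega) (le_refl _)) b1 b2 b3 ?_ ?_
      · exact fun h => hd k (by omega) h.symm
      · rw [i1 k (le_refl _)]
        exact fun h => hd' k (by omega) h.symm
    refine ⟨fun r hr1 => ?_, fun r hr1 => ?_⟩
    · rcases Nat.lt_or_ge r (k + 1) with h | h
      · exact i1 r (by omega)
      · obtain rfl : r = k + 1 := by omega
        exact e2
    · rcases Nat.lt_or_ge r (k + 2) with h | h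
      · exact i2 r (by omega)
      · obtain rfl : r = k + 1 + 1 := by omega
        change Γ.nx (Γ.run w v (a + (k + 1))) (w (a + (k + 1))) =
          Γ.nx (Γ.run w' v' (a' + (k + 1))) (w' (a' + (k + 1)))
        rw [e1, e2]

end Pool.Agent.RibLI
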