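import Pool.Agent.Lib.RibLI.Defs

/-!
# Generic ribbon disc groups : module C0

(problem MP_cf50d6_gt; paper MP_cf50d6_gt_rib50.md)
-/

set_option autoImplicit false

open scoped Classical

namespace Pool.Agent.RibLI

open Pool.Agent.LIA

universe u

/-- walks reading the same letters with the same vertex at `r` start at the same vertex -/
private theorem c0_run_back {V X : Type*} (Γ : XG V X) (w : ℕ → X × Bool) (v v' : V) (r : ℕ)
    (h1 : ∀ s < r, Γ.av (Γ.run w v s) (w s)) (h2 : ∀ s < r, Γ.av (Γ.run w v' s) (w s))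
    (h : Γ.run w v r = Γ.run w v' r) : v = v' := by
  induction r with
  | zero => exact h
  | succ r ih =>
    refine ih (fun s hs => h1 s (Nat.lt_succ_of_lt hs)) (fun s hs => h2 s (Nat.lt_succ_of_lt hs)) ?_
    have e1 := (Γ.back _ _ (h1 r (Nat.lt_succ_self r))).2
    have e2 := (Γ.back _ _ (h2 r (Nat.lt_succ_self r))).2
    have e3 : Γ.nx (Γ.run w v r) (w r) = Γ.nx (Γ.run w v' r) (w r) := h
    rw [← e1, ← e2, e3]

variable {V X : Type*} [Fintype V] [Fintype X] {Γ : XG V X} {w : ℕ → X × Bool} {N : ℕ}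
  {A : Finset V} {τ : List (X × Bool) → ℕ} {K L : ℕ}

theorem item_inj (h : Ctx Γ w N A τ K L) {i i' : V × List (X × Bool)} (hi : i ∈ items A K)
    (hi' : i' ∈ items A K) (hu : i.2 = i'.2)
    (hp : Γ.run w i.1 (τ i.2) = Γ.run w i'.1 (τ i'.2)) : i = i' := by
  have hm := Finset.mem_product.1 hi
  have hm' := Finset.mem_product.1 hi'
  have hN := (h.win i.2 hm.2).1
  rw [← hu] at hp
  refine Prod.ext ?_ hu
  exact c0_run_back Γ w i.1 i'.1 (τ i.2) (fun s hs => h.rd i.1 hm.1 s (by omega))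
    (fun s hs => h.rd i'.1 hm'.1 s (by omega)) hp

end Pool.Agent.RibLI
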