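import Pool.Agent.Lib.RibLI.Defs
import Pool.Agent.Lib.RibLI.B1
import Pool.Agent.Lib.RibLI.B2
import Pool.Agent.Lib.RibLI.B3
import Pool.Agent.Lib.RibLI.C0

/-!
# Generic ribbon disc groups : module C1

(problem MP_cf50d6_gt; paper MP_cf50d6_gt_rib50.md)
-/

set_option autoImplicit false

open scoped Classical

namespace Pool.Agent.RibLI

open Pool.Agent.LIA

universe u

variable {V X : Type*} [Fintype V] [Fintype X] {Γ : XG V X} {w : ℕ → X × Bool} {N : ℕ}
  {A : Finset V} {τ : List (X × Bool) → ℕ} {K L : ℕ}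

/-- the possible tails after the letter `b` at `x` -/
private noncomputable def c1_R (Γ : XG V X) (r : ℕ) (x : V) (b : X × Bool) :
    Finset (List (X × Bool)) :=
  if Γ.deg (Γ.nx x b) = 2 then (ext b (r + 1)).filter fun u => Γ.RdL (Γ.nx x b) u
  else ext b (r + 1)

/-- the target of the injection -/
private noncomputable def c1_T (Γ : XG V X) (r : ℕ) :
    Finset (Σ _ : V, Σ _ : X × Bool, Σ _ : X × Bool, List (X × Bool)) :=
  (Finset.univ.filter fun x => 3 ≤ Γ.deg x).sigma fun x =>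
    (Finset.univ.filter fun l => Γ.av x l).sigma fun b =>
      ((Finset.univ.filter fun l => Γ.av x l).erase b).sigma fun _ => c1_R Γ r x b

omit [Fintype V] in
private theorem c1_R_le (Γ : XG V X) (r : ℕ) (x : V) (b : X × Bool) (hb : Γ.av x b) :
    (c1_R Γ r x b).card ≤ if Γ.deg (Γ.nx x b) = 2 then (2 * Fintype.card X - 1) ^ r
      else (2 * Fintype.card X - 1) ^ (r + 1) := by
  unfold c1_R
  by_cases h : Γ.deg (Γ.nx x b) = 2
  · rw [if_pos h, if_pos h]
    exact card_rd_le Γ (Γ.nx x b) b (Γ.back x b hb).1 h r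
  · rw [if_neg h, if_neg h, card_ext]

omit [Fintype V] in
private theorem c1_sum (Γ : XG V X) (r : ℕ) (x : V) :
    ∑ b ∈ Finset.univ.filter (fun l => Γ.av x l), (c1_R Γ r x b).card ≤
      (Γ.deg x - Γ.lng x) * (2 * Fintype.card X - 1) ^ (r + 1) +
        Γ.lng x * (2 * Fintype.card X - 1) ^ r := by
  have h1 : ∑ b ∈ Finset.univ.filter (fun l => Γ.av x l), (c1_R Γ r x b).card ≤
      ∑ b ∈ Finset.univ.filter (fun l => Γ.av x l),
        if Γ.deg (Γ.nx x b) = 2 then (2 * Fintype.card X - 1) ^ r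
          else (2 * Fintype.card X - 1) ^ (r + 1) :=
    Finset.sum_le_sum fun b hb => c1_R_le Γ r x b (Finset.mem_filter.1 hb).2
  refine h1.trans (le_of_eq ?_)
  rw [Finset.sum_ite, Finset.sum_const, Finset.sum_const, smul_eq_mul, smul_eq_mul]
  have h2 : ((Finset.univ.filter (fun l => Γ.av x l)).filter
      (fun b => Γ.deg (Γ.nx x b) = 2)).card = Γ.lng x := by
    unfold XG.lng
    rw [Finset.filter_filter]
  have h3 : ((Finset.univ.filter (fun l => Γ.av x l)).filter
      (fun b => Γ.deg (Γ.nx x b) = 2)).card +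
      ((Finset.univ.filter (fun l => Γ.av x l)).filter
      (fun b => ¬ Γ.deg (Γ.nx x b) = 2)).card = Γ.deg x :=
    Finset.card_filter_add_card_filter_not _
  rw [h2] at h3 ⊢
  have h4 : ((Finset.univ.filter (fun l => Γ.av x l)).filter
      (fun b => ¬ Γ.deg (Γ.nx x b) = 2)).card = Γ.deg x - Γ.lng x := by omega
  rw [h4, Nat.add_comm]

private theorem c1_card (Γ : XG V X) (r : ℕ) :
    (c1_T Γ r).card ≤ ∑ x ∈ Finset.univ.filter fun x => 3 ≤ Γ.deg x,
      (Γ.deg x - 1) * ((Γ.deg x - Γ.lng x) * (2 * Fintype.card X - 1) ^ (r + 1) +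
        Γ.lng x * (2 * Fintype.card X - 1) ^ r) := by
  unfold c1_T
  rw [Finset.card_sigma]
  refine Finset.sum_le_sum fun x _ => ?_
  rw [Finset.card_sigma]
  have h1 : ∀ b ∈ (Finset.univ.filter fun l => Γ.av x l),
      (((Finset.univ.filter fun l => Γ.av x l).erase b).sigma fun _ => c1_R Γ r x b).card =
        (Γ.deg x - 1) * (c1_R Γ r x b).card := by
    intro b hb
    rw [Finset.card_sigma, Finset.sum_const, smul_eq_mul, Finset.card_erase_of_mem hb]
    rfl
  rw [Finset.sum_congr rfl h1, ← Finset.mul_sum]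
  exact Nat.mul_le_mul_left _ (c1_sum Γ r x)

omit [Fintype V] [Fintype X] in
private theorem c1_linv_inj {a b : X × Bool} (h : linv a = linv b) : a = b := by
  rw [← linv_linv a, h, linv_linv]

private theorem c1_mem {α : Type*} (p : α → Prop) (inst : DecidablePred p) (s : Finset α) (a : α)
    (h : a ∈ @Finset.filter α p inst s) : a ∈ s ∧ p a :=
  (@Finset.mem_filter _ p inst s a).1 h

omit [Fintype V] [Fintype X] in
/-- a list whose letters are those of the walk is readable -/
private theorem c1_rdl (Γ : XG V X) (w : ℕ → X × Bool) (v : V) : ∀ (u : List (X × Bool)) (s : ℕ),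
    (∀ r < u.length, u[r]? = some (w (s + r)) ∧ Γ.av (Γ.run w v (s + r)) (w (s + r))) →
    Γ.RdL (Γ.run w v s) u := by
  intro u
  induction u with
  | nil => intro s _; exact trivial
  | cons l u ih =>
    intro s h
    have h0 := h 0 (by simp)
    have hl : l = w s := by
      have := h0.1
      simpa using this
    refine ⟨by rw [hl]; exact h0.2, ?_⟩
    have h1 := ih (s + 1) (fun r hr => by
      have h2 := h (r + 1) (by simpa using hr)
      rw [show s + (r + 1) = s + 1 + r by omega] at h2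
      refine ⟨?_, h2.2⟩
      have h3 := h2.1
      rwa [List.getElem?_cons_succ] at h3)
    have h4 : Γ.run w v (s + 1) = Γ.nx (Γ.run w v s) l := by rw [hl]; rfl
    rwa [h4] at h1

theorem at_one (h : Ctx Γ w N A τ K L) (hK : 3 ≤ K) :
    (itemsAt Γ w A τ K 1).card ≤ ∑ x ∈ Finset.univ.filter fun x => 3 ≤ Γ.deg x,
      (Γ.deg x - 1) * ((Γ.deg x - Γ.lng x) * (2 * Fintype.card X - 1) ^ (K - 2) +
        Γ.lng x * (2 * Fintype.card X - 1) ^ (K - 3)) := by
  obtain ⟨r, rfl⟩ : ∃ r, K = r + 3 := ⟨K - 3, by omega⟩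
  rw [show r + 3 - 2 = r + 1 by omega, show r + 3 - 3 = r by omega]
  refine le_trans ?_ (c1_card Γ r)
  have key : ∀ i ∈ itemsAt Γ w A τ (r + 3) 1, i ∈ items A (r + 3) ∧ i.1 ∈ A ∧
      i.2.length = r + 3 ∧ Rdc i.2 ∧ τ i.2 + (r + 3) + L ≤ N ∧
      (∀ k < r + 3, i.2[k]? = some (w (τ i.2 + k))) ∧
      3 ≤ Γ.deg (Γ.run w i.1 (τ i.2 + 1)) := by
    intro i hi
    unfold itemsAt at hi
    have hj := c1_mem _ _ _ _ hi
    have h1 := hj.1
    unfold items at h1
    have h1 := Finset.mem_product.1 h1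
    have h2 := (mem_RW (r + 3) i.2).1 h1.2
    have h3 := h.win i.2 h1.2
    exact ⟨hj.1, h1.1, h2.1, h2.2, h3.1, h3.2, hj.2.1⟩
  refine Finset.card_le_card_of_injOn
    (fun i => ⟨Γ.run w i.1 (τ i.2 + 1), w (τ i.2 + 1), linv (w (τ i.2)), i.2.drop 2⟩) ?_ ?_
  · intro i hi
    obtain ⟨-, hA, hlen, hrd, hN, hwin, hdeg⟩ := key i hi
    have hav : Γ.av (Γ.run w i.1 (τ i.2)) (w (τ i.2)) := h.rd i.1 hA _ (by omega)
    have hback := Γ.back _ _ hav
    have hav' : Γ.av (Γ.run w i.1 (τ i.2 + 1)) (w (τ i.2 + 1)) := h.rd i.1 hA _ (by omega)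
    have hne : w (τ i.2 + 1) ≠ linv (w (τ i.2)) := h.red (τ i.2) (by omega)
    have hext : i.2.drop 2 ∈ ext (w (τ i.2 + 1)) (r + 1) := by
      rw [mem_ext]
      refine ⟨by rw [List.length_drop, hlen]; omega, ?_⟩
      have hsl : 1 < i.2.length := by omega
      have h4 : i.2[1] = w (τ i.2 + 1) := by
        have := hwin 1 (by omega)
        rw [List.getElem?_eq_getElem hsl] at this
        exact Option.some.inj this
      have h5 : w (τ i.2 + 1) :: i.2.drop 2 = i.2.drop 1 := by
        rw [List.drop_eq_getElem_cons hsl, h4]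
      rw [h5]
      intro k a b hka hkb
      rw [List.getElem?_drop] at hka hkb
      exact hrd (1 + k) a b hka hkb
    refine Finset.mem_coe.2 ?_
    unfold c1_T
    simp only [Finset.mem_sigma, Finset.mem_filter, Finset.mem_univ, true_and, Finset.mem_erase]
    refine ⟨hdeg, hav', ⟨hne.symm, hback.1⟩, ?_⟩
    unfold c1_R
    by_cases h2 : Γ.deg (Γ.nx (Γ.run w i.1 (τ i.2 + 1)) (w (τ i.2 + 1))) = 2
    · rw [if_pos h2, Finset.mem_filter]
      refine ⟨hext, ?_⟩
      have h6 := c1_rdl Γ w i.1 (i.2.drop 2) (τ i.2 + 2) (fun k hk => by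
        rw [List.length_drop, hlen] at hk
        refine ⟨?_, h.rd i.1 hA _ (by omega)⟩
        rw [List.getElem?_drop, hwin (2 + k) (by omega)]
        congr 2
        omega)
      exact h6
    · rw [if_neg h2]
      exact hext
  · intro i hi i' hi' hf
    rw [Finset.mem_coe] at hi hi'
    obtain ⟨hit, hA, hlen, hrd, hN, hwin, hdeg⟩ := key i hi
    obtain ⟨hit', hA', hlen', hrd', hN', hwin', hdeg'⟩ := key i' hi'
    simp only [Sigma.mk.injEq, heq_eq_eq] at hf
    obtain ⟨h1, h3, h2, h4⟩ := hf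
    have h2 := c1_linv_inj h2
    have hu : i.2 = i'.2 := by
      refine List.ext_getElem? fun k => ?_
      rcases Nat.lt_or_ge k 2 with hk | hk
      · obtain rfl | rfl : k = 0 ∨ k = 1 := by omega
        · rw [hwin 0 (by omega), hwin' 0 (by omega)]
          exact congrArg some h2
        · rw [hwin 1 (by omega), hwin' 1 (by omega), h3]
      · have e : 2 + (k - 2) = k := by omega
        have := congrArg (fun l : List (X × Bool) => l[k - 2]?) h4
        simp only [List.getElem?_drop, e] at this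
        exact this
    have e1 := (Γ.back _ _ (h.rd i.1 hA (τ i.2) (by omega))).2
    have e2 := (Γ.back _ _ (h.rd i'.1 hA' (τ i'.2) (by omega))).2
    have e3 : Γ.nx (Γ.run w i.1 (τ i.2)) (w (τ i.2)) =
        Γ.nx (Γ.run w i'.1 (τ i'.2)) (w (τ i'.2)) := h1
    refine item_inj h hit hit' hu ?_
    rw [← e1, ← e2, e3, h2]

end Pool.Agent.RibLI
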