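import Pool.Agent.Lib.RibLI.Defs
import Pool.Agent.Lib.RibLI.B1
import Pool.Agent.Lib.RibLI.B3
import Pool.Agent.Lib.RibLI.C0

/-!
# Generic ribbon disc groups : module C2

(problem MP_cf50d6_gt; paper MP_cf50d6_gt_rib50.md)
-/

set_option autoImplicit false

open scoped Classical

namespace Pool.Agent.RibLI

open Pool.Agent.LIA

universe u

variable {V X : Type*} [Fintype V] [Fintype X] {Γ : XG V X} {w : ℕ → X × Bool} {N : ℕ}
  {A : Finset V} {τ : List (X × Bool) → ℕ} {K L : ℕ}

/-- the target of the injection -/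
private noncomputable def c2_T (Γ : XG V X) (r : ℕ) :
    Finset (Σ _ : V, Σ _ : X × Bool, Σ _ : X × Bool, List (X × Bool)) :=
  (Finset.univ.filter fun x => 3 ≤ Γ.deg x).sigma fun x =>
    (Finset.univ.filter fun l => Γ.av x l ∧ Γ.deg (Γ.nx x l) = 2).sigma fun a =>
      ((Finset.univ.filter fun l => Γ.av x l).erase a).sigma fun b => ext b r

private theorem c2_card (Γ : XG V X) (r : ℕ) :
    (c2_T Γ r).card = ∑ x ∈ Finset.univ.filter fun x => 3 ≤ Γ.deg x,
      Γ.lng x * (Γ.deg x - 1) * (2 * Fintype.card X - 1) ^ r := by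
  unfold c2_T
  rw [Finset.card_sigma]
  refine Finset.sum_congr rfl fun x _ => ?_
  rw [Finset.card_sigma]
  have h1 : ∀ a ∈ (Finset.univ.filter fun l => Γ.av x l ∧ Γ.deg (Γ.nx x l) = 2),
      (((Finset.univ.filter fun l => Γ.av x l).erase a).sigma fun b => ext b r).card =
        (Γ.deg x - 1) * (2 * Fintype.card X - 1) ^ r := by
    intro a ha
    rw [Finset.card_sigma]
    have ha' : a ∈ (Finset.univ.filter fun l => Γ.av x l) := by
      rw [Finset.mem_filter] at ha ⊢
      exact ⟨ha.1, ha.2.1⟩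
    rw [Finset.sum_congr rfl fun b _ => card_ext b r, Finset.sum_const, smul_eq_mul,
      Finset.card_erase_of_mem ha']
    rfl
  rw [Finset.sum_congr rfl h1, Finset.sum_const, smul_eq_mul, mul_assoc]
  rfl

private theorem c2_linv_inj {a b : X × Bool} (h : linv a = linv b) : a = b := by
  rw [← linv_linv a, h, linv_linv]

private theorem c2_mem {α : Type*} (p : α → Prop) (inst : DecidablePred p) (s : Finset α) (a : α)
    (h : a ∈ @Finset.filter α p inst s) : a ∈ s ∧ p a :=
  (@Finset.mem_filter _ p inst s a).1 h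

theorem at_mid (h : Ctx Γ w N A τ K L) {s : ℕ} (hs : 2 ≤ s) (hs' : s < K) :
    (itemsAt Γ w A τ K s).card ≤ ∑ x ∈ Finset.univ.filter fun x => 3 ≤ Γ.deg x,
      Γ.lng x * (Γ.deg x - 1) * (2 * Fintype.card X - 1) ^ (K - s - 1) := by
  rw [← c2_card]
  have key : ∀ i ∈ itemsAt Γ w A τ K s, i ∈ items A K ∧ i.1 ∈ A ∧ i.2 ∈ RW X K ∧
      i.2.length = K ∧ Rdc i.2 ∧ τ i.2 + K + L ≤ N ∧ (∀ r < K, i.2[r]? = some (w (τ i.2 + r))) ∧
      3 ≤ Γ.deg (Γ.run w i.1 (τ i.2 + s)) ∧
      ∀ s', 1 ≤ s' → s' < s → Γ.deg (Γ.run w i.1 (τ i.2 + s')) = 2 := by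
    intro i hi
    unfold itemsAt at hi
    have hj := c2_mem _ _ _ _ hi
    have h1 := hj.1
    unfold items at h1
    have h1 := Finset.mem_product.1 h1
    have h2 := (mem_RW K i.2).1 h1.2
    have h3 := h.win i.2 h1.2
    exact ⟨hj.1, h1.1, h1.2, h2.1, h2.2, h3.1, h3.2, hj.2.1, hj.2.2⟩
  refine Finset.card_le_card_of_injOn
    (fun i => ⟨Γ.run w i.1 (τ i.2 + s), linv (w (τ i.2 + s - 1)), w (τ i.2 + s),
      i.2.drop (s + 1)⟩) ?_ ?_
  · intro i hi
    obtain ⟨-, hA, -, hlen, hrd, hN, hwin, hdeg, hd2⟩ := key i hi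
    have hstep : τ i.2 + s - 1 + 1 = τ i.2 + s := by omega
    have hav : Γ.av (Γ.run w i.1 (τ i.2 + s - 1)) (w (τ i.2 + s - 1)) :=
      h.rd i.1 hA _ (by omega)
    have hrun : Γ.run w i.1 (τ i.2 + s) =
        Γ.nx (Γ.run w i.1 (τ i.2 + s - 1)) (w (τ i.2 + s - 1)) := by
      conv_lhs => rw [← hstep]
      rfl
    have hback := Γ.back _ _ hav
    rw [← hrun] at hback
    have hav' : Γ.av (Γ.run w i.1 (τ i.2 + s)) (w (τ i.2 + s)) := h.rd i.1 hA _ (by omega)
    have hne : w (τ i.2 + s) ≠ linv (w (τ i.2 + s - 1)) := by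
      have := h.red (τ i.2 + s - 1) (by omega)
      rwa [hstep] at this
    have hd : Γ.deg (Γ.run w i.1 (τ i.2 + s - 1)) = 2 := by
      have := hd2 (s - 1) (by omega) (by omega)
      have e : τ i.2 + (s - 1) = τ i.2 + s - 1 := by omega
      rwa [e] at this
    refine Finset.mem_coe.2 ?_
    unfold c2_T
    simp only [Finset.mem_sigma, Finset.mem_filter, Finset.mem_univ, true_and, Finset.mem_erase]
    refine ⟨hdeg, ⟨hback.1, ?_⟩, ⟨hne, hav'⟩, ?_⟩
    · rw [hback.2]
      exact hd
    · rw [mem_ext]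
      refine ⟨?_, ?_⟩
      · rw [List.length_drop, hlen]
        omega
      · have hsl : s < i.2.length := by omega
        have h4 : i.2[s] = w (τ i.2 + s) := by
          have := hwin s hs'
          rw [List.getElem?_eq_getElem hsl] at this
          exact Option.some.inj this
        have h5 : w (τ i.2 + s) :: i.2.drop (s + 1) = i.2.drop s := by
          rw [List.drop_eq_getElem_cons hsl, h4]
        rw [h5]
        intro k a b hka hkb
        rw [List.getElem?_drop] at hka hkb
        exact hrd (s + k) a b hka hkb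
  · intro i hi i' hi' hf
    rw [Finset.mem_coe] at hi hi'
    obtain ⟨hit, hA, -, hlen, hrd, hN, hwin, hdeg, hd2⟩ := key i hi
    obtain ⟨hit', hA', -, hlen', hrd', hN', hwin', hdeg', hd2'⟩ := key i' hi'
    simp only [Sigma.mk.injEq, heq_eq_eq] at hf
    obtain ⟨h1, h2, h3, h4⟩ := hf
    have h2 := c2_linv_inj h2
    have hb := back_det Γ w w i.1 i'.1 (τ i.2) (τ i'.2) s (by omega) h1 h2
      (fun r hr => h.rd i.1 hA _ (by omega)) (fun r hr => h.rd i'.1 hA' _ (by omega))
      (fun r hr hr' => by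
        have := h.red (τ i.2 + r - 1) (by omega)
        rwa [show τ i.2 + r - 1 + 1 = τ i.2 + r by omega] at this)
      (fun r hr hr' => by
        have := h.red (τ i'.2 + r - 1) (by omega)
        rwa [show τ i'.2 + r - 1 + 1 = τ i'.2 + r by omega] at this)
      hd2
    have hu : i.2 = i'.2 := by
      refine List.ext_getElem? fun k => ?_
      rcases lt_trichotomy k s with hk | hk | hk
      · rw [hwin k (by omega), hwin' k (by omega), hb.2 k hk]
      · rw [hk, hwin s hs', hwin' s hs', h3]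
      · have e : s + 1 + (k - (s + 1)) = k := by omega
        have := congrArg (fun l : List (X × Bool) => l[k - (s + 1)]?) h4
        simp only [List.getElem?_drop, e] at this
        exact this
    exact item_inj h hit hit' hu hb.1

end Pool.Agent.RibLI
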