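import Pool.Agent.Lib.RibLI.Defs
import Pool.Agent.Lib.RibLI.B1
import Pool.Agent.Lib.RibLI.B3
import Pool.Agent.Lib.RibLI.C0

/-!
# Generic ribbon disc groups : module C3

(problem MP_cf50d6_gt; paper MP_cf50d6_gt_rib50.md)
-/

set_option autoImplicit false

open scoped Classical

namespace Pool.Agent.RibLI

open Pool.Agent.LIA

universe u

variable {V X : Type*} [Fintype V] [Fintype X] {Γ : XG V X} {w : ℕ → X × Bool} {N : ℕ}
  {A : Finset V} {τ : List (X × Bool) → ℕ} {K L : ℕ}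

theorem at_end (h : Ctx Γ w N A τ K L) {s : ℕ} (hK : 2 ≤ K) (hs : K ≤ s) (hs' : s < K + L) :
    (itemsAt Γ w A τ K s).card ≤ ∑ x ∈ Finset.univ.filter fun x => 3 ≤ Γ.deg x, Γ.lng x := by
  have hmem : ∀ i ∈ itemsAt Γ w A τ K s, (i.1 ∈ A ∧ i.2 ∈ RW X K) ∧
      3 ≤ Γ.deg (Γ.run w i.1 (τ i.2 + s)) ∧
      ∀ s', 1 ≤ s' → s' < s → Γ.deg (Γ.run w i.1 (τ i.2 + s')) = 2 := by
    intro i hi
    have h1 := (@Finset.mem_filter _ _ (_) _ _).1 hi
    exact ⟨Finset.mem_product.1 h1.1, h1.2⟩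
  have hsum : ∑ x ∈ Finset.univ.filter (fun x => 3 ≤ Γ.deg x), Γ.lng x =
      ((Finset.univ.filter fun x => 3 ≤ Γ.deg x).sigma fun x =>
        Finset.univ.filter fun l => Γ.av x l ∧ Γ.deg (Γ.nx x l) = 2).card := by
    rw [Finset.card_sigma]
    rfl
  rw [hsum]
  refine Finset.card_le_card_of_injOn (fun i => (⟨Γ.run w i.1 (τ i.2 + s),
    linv (w (τ i.2 + s - 1))⟩ : (_ : V) × (X × Bool))) ?_ ?_
  · intro i hi
    obtain ⟨⟨hA, hW⟩, h3, h2⟩ := hmem i hi
    have hwin := h.win i.2 hW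
    obtain ⟨r, hr⟩ : ∃ r, τ i.2 + s = r + 1 := ⟨τ i.2 + s - 1, by omega⟩
    have hrN : r < N := by omega
    have hb := Γ.back _ _ (h.rd i.1 hA r hrN)
    have hr1 : τ i.2 + s - 1 = r := by omega
    simp only [Finset.coe_sigma, Set.mem_sigma_iff, Finset.coe_filter, Finset.mem_univ, true_and,
      Set.mem_ofPred_eq]
    rw [hr1]
    refine ⟨h3, ?_, ?_⟩
    · rw [hr]; exact hb.1
    · have h4 := h2 (s - 1) (by omega) (by omega)
      have h5 : τ i.2 + (s - 1) = r := by omega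
      rw [h5] at h4
      have h6 : Γ.nx (Γ.run w i.1 (τ i.2 + s)) (linv (w r)) = Γ.run w i.1 r := by
        rw [hr]; exact hb.2
      rw [h6]
      exact h4
  · intro i hi i' hi' heq
    obtain ⟨⟨hA, hW⟩, h3, h2⟩ := hmem i hi
    obtain ⟨⟨hA', hW'⟩, h3', h2'⟩ := hmem i' hi'
    have hwin := h.win i.2 hW
    have hwin' := h.win i'.2 hW'
    simp only [Sigma.mk.injEq, heq_eq_eq] at heq
    obtain ⟨e1, e2⟩ := heq
    have e3 : w (τ i.2 + s - 1) = w (τ i'.2 + s - 1) := by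
      have h4 : linv (linv (w (τ i.2 + s - 1))) = linv (linv (w (τ i'.2 + s - 1))) := by rw [e2]
      have h5 : ∀ l : X × Bool, linv (linv l) = l := by
        rintro ⟨x, b⟩
        cases b <;> rfl
      rw [h5, h5] at h4
      exact h4
    obtain ⟨f1, f2⟩ := back_det Γ w w i.1 i'.1 (τ i.2) (τ i'.2) s (by omega) e1 e3
      (fun r hr => h.rd i.1 hA _ (by omega)) (fun r hr => h.rd i'.1 hA' _ (by omega))
      (fun r hr hr' => by
        have h6 := h.red (τ i.2 + r - 1) (by omega)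
        have h7 : τ i.2 + r - 1 + 1 = τ i.2 + r := by omega
        rw [h7] at h6
        exact h6)
      (fun r hr hr' => by
        have h6 := h.red (τ i'.2 + r - 1) (by omega)
        have h7 : τ i'.2 + r - 1 + 1 = τ i'.2 + r := by omega
        rw [h7] at h6
        exact h6)
      h2
    have hu : i.2 = i'.2 := by
      refine List.ext_getElem? fun r => ?_
      rcases Nat.lt_or_ge r K with h8 | h8
      · rw [hwin.2 r h8, hwin'.2 r h8, f2 r (by omega)]
      · have l1 := ((mem_RW K i.2).1 hW).1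
        have l2 := ((mem_RW K i'.2).1 hW').1
        rw [List.getElem?_eq_none (by omega), List.getElem?_eq_none (by omega)]
    exact item_inj h (Finset.mem_product.2 ⟨hA, hW⟩) (Finset.mem_product.2 ⟨hA', hW'⟩) hu f1

end Pool.Agent.RibLI
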