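import Pool.Agent.Lib.RibLI.Defs
import Pool.Agent.Lib.RibLI.B1
import Pool.Agent.Lib.RibLI.B3
import Pool.Agent.Lib.RibLI.C0

/-!
# Generic ribbon disc groups : module C4

(problem MP_cf50d6_gt; paper MP_cf50d6_gt_rib50.md)
-/

set_option autoImplicit false

open scoped Classical

namespace Pool.Agent.RibLI

open Pool.Agent.LIA

universe u

variable {V X : Type*} [Fintype V] [Fintype X] {Γ : XG V X} {w : ℕ → X × Bool} {N : ℕ}
  {A : Finset V} {τ : List (X × Bool) → ℕ} {K L : ℕ}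

private theorem c4_linv_inj {X : Type*} {a b : X × Bool} (h : linv a = linv b) : a = b := by
  obtain ⟨a1, a2⟩ := a
  obtain ⟨b1, b2⟩ := b
  simp only [linv, Prod.mk.injEq] at h
  obtain ⟨h1, h2⟩ := h
  subst h1
  cases a2 <;> cases b2 <;> simp_all

private theorem c4_mem {D : ℕ} (i : V × List (X × Bool)) :
    i ∈ itemsFar Γ w A τ K D ↔ i ∈ items A K ∧
      ∀ s', 1 ≤ s' → s' ≤ D → Γ.deg (Γ.run w i.1 (τ i.2 + s')) = 2 := by
  unfold itemsFar
  exact @Finset.mem_filter _ _ (fun _ => Classical.propDecidable _) _ _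

theorem far_marks (h : Ctx Γ w N A τ K L) (hK : 2 ≤ K) {M : Type*} [Fintype M] (mk : M → V)
    (hdeep : ∀ v ∈ A, ∀ t, t + K + L ≤ N →
      (∀ s, 1 ≤ s → s < K + L → Γ.deg (Γ.run w v (t + s)) = 2) →
      ∃ s μ, 1 ≤ s ∧ s < K + L ∧ mk μ = Γ.run w v (t + s)) :
    (itemsFar Γ w A τ K (K + L - 1)).card ≤ Fintype.card M * (2 * (K + L - 1)) := by
  set S : M → Finset (X × Bool) := fun μ =>
    if Γ.deg (mk μ) = 2 then Finset.univ.filter (fun l => Γ.av (mk μ) l) else ∅ with hS
  have hScard : ∀ μ, (S μ).card ≤ 2 := by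
    intro μ
    simp only [hS]
    split_ifs with hd
    · exact le_of_eq hd
    · simp
  set T : Finset (Σ _ : M, ℕ × (X × Bool)) :=
    Finset.univ.sigma fun μ => Finset.range (K + L - 1) ×ˢ S μ with hT
  have hTcard : T.card ≤ Fintype.card M * (2 * (K + L - 1)) := by
    rw [hT, Finset.card_sigma]
    calc ∑ μ : M, (Finset.range (K + L - 1) ×ˢ S μ).card
        ≤ ∑ _μ : M, 2 * (K + L - 1) := by
          refine Finset.sum_le_sum fun μ _ => ?_
          rw [Finset.card_product, Finset.card_range, mul_comm]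
          exact Nat.mul_le_mul_right _ (hScard μ)
      _ = Fintype.card M * (2 * (K + L - 1)) := by simp
  refine le_trans ?_ hTcard
  refine Finset.card_le_card_of_forall_subsingleton
    (fun i b => mk b.1 = Γ.run w i.1 (τ i.2 + (b.2.1 + 1)) ∧ b.2.2 = linv (w (τ i.2 + b.2.1)))
    ?_ ?_
  · intro i hi
    rw [c4_mem] at hi
    obtain ⟨hi1, hi2⟩ := hi
    have hm := Finset.mem_product.1 hi1
    have hN := (h.win i.2 hm.2).1
    obtain ⟨s, μ, hs1, hs2, hμ⟩ := hdeep i.1 hm.1 (τ i.2) hN (fun s h1 h2 => hi2 s h1 (by omega))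
    obtain ⟨s, rfl⟩ : ∃ s', s = s' + 1 := ⟨s - 1, by omega⟩
    refine ⟨⟨μ, (s, linv (w (τ i.2 + s)))⟩, ?_, hμ, rfl⟩
    have hdeg : Γ.deg (mk μ) = 2 := by
      rw [hμ]
      exact hi2 (s + 1) (by omega) (by omega)
    have hav : Γ.av (Γ.run w i.1 (τ i.2 + s)) (w (τ i.2 + s)) := h.rd i.1 hm.1 _ (by omega)
    have hb := (Γ.back _ _ hav).1
    have hav' : Γ.av (mk μ) (linv (w (τ i.2 + s))) := by
      rw [hμ]
      exact hb
    simp only [hT, Finset.mem_sigma, Finset.mem_univ, true_and, Finset.mem_product,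
      Finset.mem_range]
    refine ⟨by omega, ?_⟩
    simp only [hS, if_pos hdeg, Finset.mem_filter, Finset.mem_univ, true_and]
    exact hav'
  · rintro ⟨μ, s, a⟩ hb i hi i' hi'
    simp only [hT, Finset.mem_sigma, Finset.mem_univ, true_and, Finset.mem_product,
      Finset.mem_range] at hb
    obtain ⟨hs, _⟩ := hb
    obtain ⟨hiF, hi3, hi4⟩ := hi
    obtain ⟨hiF', hi3', hi4'⟩ := hi'
    rw [c4_mem] at hiF hiF'
    obtain ⟨hi1, hi2⟩ := hiF
    obtain ⟨hi1', hi2'⟩ := hiF'
    have hm := Finset.mem_product.1 hi1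
    have hm' := Finset.mem_product.1 hi1'
    have hN := (h.win i.2 hm.2).1
    have hN' := (h.win i'.2 hm'.2).1
    simp only at hi3 hi4 hi3' hi4'
    have hw : w (τ i.2 + s) = w (τ i'.2 + s) := c4_linv_inj (hi4.symm.trans hi4')
    have hback := back_det Γ w w i.1 i'.1 (τ i.2) (τ i'.2) (s + 1) (by omega)
      (hi3.symm.trans hi3') (by simpa using hw)
      (fun r hr => h.rd i.1 hm.1 _ (by omega)) (fun r hr => h.rd i'.1 hm'.1 _ (by omega))
      (fun r hr1 hr2 => by
        have := h.red (τ i.2 + r - 1) (by omega)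
        rwa [show τ i.2 + r - 1 + 1 = τ i.2 + r by omega] at this)
      (fun r hr1 hr2 => by
        have := h.red (τ i'.2 + r - 1) (by omega)
        rwa [show τ i'.2 + r - 1 + 1 = τ i'.2 + r by omega] at this)
      (fun r hr1 hr2 => hi2 r hr1 (by omega))
    obtain ⟨hp, hlet⟩ := hback
    have hfwd := fwd_det Γ w w i.1 i'.1 (τ i.2) (τ i'.2) (K - 1) hp
      (by simpa using hlet 0 (by omega))
      (fun r hr => h.rd i.1 hm.1 _ (by omega)) (fun r hr => h.rd i'.1 hm'.1 _ (by omega))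
      (fun r hr => h.red _ (by omega)) (fun r hr => h.red _ (by omega))
      (fun r hr1 hr2 => hi2 r hr1 (by omega))
    have hu : i.2 = i'.2 := by
      have hl := ((mem_RW K i.2).1 hm.2).1
      have hl' := ((mem_RW K i'.2).1 hm'.2).1
      refine List.ext_getElem? fun r => ?_
      by_cases hr : r < K
      · rw [(h.win i.2 hm.2).2 r hr, (h.win i'.2 hm'.2).2 r hr, hfwd.1 r (by omega)]
      · rw [List.getElem?_eq_none (by omega), List.getElem?_eq_none (by omega)]
    exact item_inj h hi1 hi1' hu hp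

end Pool.Agent.RibLI
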