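import Pool.Agent.Lib.RibLI.Defs

/-!
# Generic ribbon disc groups : module C5

(problem MP_cf50d6_gt; paper MP_cf50d6_gt_rib50.md)
-/

set_option autoImplicit false

open scoped Classical

namespace Pool.Agent.RibLI

open Pool.Agent.LIA

universe u

private theorem c5_geom (q : ℕ) (hq : 3 ≤ q) (k : ℕ) :
    2 * (∑ i ∈ Finset.range (k + 1), q ^ i) + 1 ≤ q ^ (k + 1) := by
  induction k with
  | zero => simp; omega
  | succ k ih =>
    rw [Finset.sum_range_succ]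
    have h : 3 * q ^ (k + 1) ≤ q ^ (k + 1 + 1) := by
      rw [pow_succ q (k + 1), mul_comm (q ^ (k + 1)) q]
      exact Nat.mul_le_mul_right _ hq
    omega

private theorem c5_sum (q k : ℕ) :
    (∑ s ∈ Finset.Ico 2 (k + 3), q ^ (k + 3 - s - 1)) = ∑ i ∈ Finset.range (k + 1), q ^ i := by
  rw [Finset.sum_Ico_eq_sum_range]
  have e : k + 3 - 2 = k + 1 := by omega
  rw [e, ← Finset.sum_range_reflect (fun i => q ^ i) (k + 1)]
  apply Finset.sum_congr rfl
  intro i hi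
  have hi' : i < k + 1 := Finset.mem_range.mp hi
  have : k + 3 - (2 + i) - 1 = k + 1 - 1 - i := by omega
  rw [this]

theorem arith_one (d g q K L : ℕ) (hK : 3 ≤ K) (hd : 3 ≤ d) (hg : g ≤ d) (hq : 3 ≤ q)
    (hL : 3 * L ≤ q ^ (K - 2)) :
    (d - 1) * ((d - g) * q ^ (K - 2) + g * q ^ (K - 3)) +
      (∑ s ∈ Finset.Ico 2 K, g * (d - 1) * q ^ (K - s - 1)) + L * g ≤
        q ^ (K - 2) * (d * (d - 1)) := by
  obtain ⟨k, rfl⟩ : ∃ k, K = k + 3 := ⟨K - 3, by omega⟩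
  obtain ⟨e, rfl⟩ : ∃ e, d = e + 1 := ⟨d - 1, by omega⟩
  obtain ⟨h, hh⟩ : ∃ h, e + 1 = g + h := ⟨e + 1 - g, by omega⟩
  have e1 : k + 3 - 2 = k + 1 := by omega
  have e2 : k + 3 - 3 = k := by omega
  have e3 : e + 1 - 1 = e := by omega
  have e4 : e + 1 - g = h := by omega
  rw [e1] at hL
  rw [e1, e2, e3, e4, ← Finset.mul_sum, c5_sum]
  have hG := c5_geom q hq k
  have hR : 3 * q ^ k ≤ q ^ (k + 1) := by
    rw [pow_succ q k, mul_comm (q ^ k) q]
    exact Nat.mul_le_mul_right _ hq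
  generalize (∑ i ∈ Finset.range (k + 1), q ^ i) = G at hG ⊢
  generalize q ^ (k + 1) = Q at hL hG hR ⊢
  generalize q ^ k = R at hR ⊢
  have he : 2 ≤ e := by omega
  have key : e * (R + G) + L ≤ e * Q := by
    have h1 : 6 * (R + G) + 3 ≤ 5 * Q := by omega
    have h2 : e * (6 * (R + G) + 3) ≤ e * (5 * Q) := Nat.mul_le_mul_left e h1
    have h3 : 2 * Q ≤ e * Q := Nat.mul_le_mul_right Q he
    nlinarith
  have key2 : g * (e * (R + G) + L) ≤ g * (e * Q) := Nat.mul_le_mul_left g key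
  calc e * (h * Q + g * R) + g * e * G + L * g
      = e * h * Q + g * (e * (R + G) + L) := by ring
    _ ≤ e * h * Q + g * (e * Q) := Nat.add_le_add_left key2 _
    _ = Q * ((g + h) * e) := by ring
    _ = Q * ((e + 1) * e) := by rw [hh]

theorem arith_two (m n d : ℕ) (hmn : m + 1 ≤ n) (hd : 3 ≤ d) (hd' : d ≤ 2 * n) :
    m * (d * (d - 1)) ≤ n * (2 * n - 1) * (d - 2) := by
  obtain ⟨a, rfl⟩ : ∃ a, d = a + 3 := ⟨d - 3, by omega⟩
  obtain ⟨b, rfl⟩ : ∃ b, n = b + 2 := ⟨n - 2, by omega⟩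
  obtain ⟨c, hc⟩ : ∃ c, 2 * (b + 2) = a + 3 + c := ⟨2 * (b + 2) - (a + 3), by omega⟩
  have e1 : a + 3 - 1 = a + 2 := by omega
  have e2 : 2 * (b + 2) - 1 = 2 * b + 3 := by omega
  have e3 : a + 3 - 2 = a + 1 := by omega
  rw [e1, e2, e3]
  have hm : m ≤ b + 1 := by omega
  have h1 : m * ((a + 3) * (a + 2)) ≤ (b + 1) * ((a + 3) * (a + 2)) :=
    Nat.mul_le_mul_right _ hm
  have hca : a = 2 * b + 1 - c := by omega
  have h2 : (b + 1) * ((a + 3) * (a + 2)) + c * ((b + 1) * a + b) =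
      (b + 2) * (2 * b + 3) * (a + 1) := by
    have hb : (2 : ℤ) * (b + 2) = a + 3 + c := by exact_mod_cast hc
    have hcz : (c : ℤ) = 2 * b + 1 - a := by linarith
    have : ((b : ℤ) + 1) * ((a + 3) * (a + 2)) + c * ((b + 1) * a + b) =
      (b + 2) * (2 * b + 3) * (a + 1) := by
      rw [hcz]; ring
    exact_mod_cast this
  omega

end Pool.Agent.RibLI
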