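import Pool.Agent.Lib.RibLI.Defs
import Pool.Agent.Lib.RibLI.B1
import Pool.Agent.Lib.RibLI.C1
import Pool.Agent.Lib.RibLI.C2
import Pool.Agent.Lib.RibLI.C3
import Pool.Agent.Lib.RibLI.C4
import Pool.Agent.Lib.RibLI.C5

/-!
# Generic ribbon disc groups : module C6

(problem MP_cf50d6_gt; paper MP_cf50d6_gt_rib50.md)
-/

set_option autoImplicit false

open scoped Classical

namespace Pool.Agent.RibLI

open Pool.Agent.LIA

universe u

variable {V X : Type*} [Fintype V] [Fintype X] {Γ : XG V X} {w : ℕ → X × Bool} {N : ℕ}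
  {A : Finset V} {τ : List (X × Bool) → ℕ} {K L : ℕ}

omit [Fintype V] in
/-- every item has a first branch vertex at distance `< K + L`, or none -/
private theorem c6_cover (h : Ctx Γ w N A τ K L) :
    items A K ⊆ itemsFar Γ w A τ K (K + L - 1) ∪
      (Finset.Ico 1 (K + L)).biUnion fun s => itemsAt Γ w A τ K s := by
  rintro ⟨v, u⟩ hi
  obtain ⟨hv, hu⟩ := Finset.mem_product.1 hi
  rw [Finset.mem_union]
  by_cases hall : ∀ s', 1 ≤ s' → s' ≤ K + L - 1 → Γ.deg (Γ.run w v (τ u + s')) = 2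
  · left
    simp only [itemsFar, Finset.mem_filter]
    exact ⟨hi, hall⟩
  · right
    push Not at hall
    have hex : ∃ s', 1 ≤ s' ∧ s' ≤ K + L - 1 ∧ Γ.deg (Γ.run w v (τ u + s')) ≠ 2 := hall
    have hspec := Nat.find_spec hex
    have hmin : ∀ s', 1 ≤ s' → s' < Nat.find hex → Γ.deg (Γ.run w v (τ u + s')) = 2 := by
      intro s' h1 h2
      by_contra h3
      exact Nat.find_min hex h2 ⟨h1, by omega, h3⟩
    generalize Nat.find hex = s at hspec hmin
    obtain ⟨hs1, hs2, hs3⟩ := hspec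
    have hwin := (h.win u hu).1
    have hd := h.deg2 v hv (τ u + s) (by omega)
    rw [Finset.mem_biUnion]
    refine ⟨s, Finset.mem_Ico.2 ⟨hs1, by omega⟩, ?_⟩
    simp only [itemsAt, Finset.mem_filter]
    exact ⟨hi, by omega, hmin⟩

theorem count_one (h : Ctx Γ w N A τ K L) (hK : 3 ≤ K) (hX : 2 ≤ Fintype.card X)
    (hL : 3 * L ≤ (2 * Fintype.card X - 1) ^ (K - 2)) {M : Type*} [Fintype M] (mk : M → V)
    (hdeep : ∀ v ∈ A, ∀ t, t + K + L ≤ N →
      (∀ s, 1 ≤ s → s < K + L → Γ.deg (Γ.run w v (t + s)) = 2) →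
      ∃ s μ, 1 ≤ s ∧ s < K + L ∧ mk μ = Γ.run w v (t + s)) :
    A.card * (2 * Fintype.card X * (2 * Fintype.card X - 1) ^ (K - 1)) ≤
      (∑ x ∈ Finset.univ.filter fun x => 3 ≤ Γ.deg x,
        (2 * Fintype.card X - 1) ^ (K - 2) * (Γ.deg x * (Γ.deg x - 1))) +
        Fintype.card M * (2 * (K + L - 1)) := by
  have hitems : (items (X := X) A K).card =
      A.card * (2 * Fintype.card X * (2 * Fintype.card X - 1) ^ (K - 1)) := by
    obtain ⟨k, hk⟩ : ∃ k, K = k + 1 := ⟨K - 1, by omega⟩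
    unfold items
    rw [Finset.card_product, hk, card_RW, Nat.add_sub_cancel]
  rw [← hitems]
  have hK2 : 2 ≤ K := by omega
  have hfar := far_marks h hK2 mk hdeep
  have h1 := (Finset.card_le_card (c6_cover h)).trans (Finset.card_union_le _ _)
  have h2 : ((Finset.Ico 1 (K + L)).biUnion fun s => itemsAt Γ w A τ K s).card ≤
      ∑ s ∈ Finset.Ico 1 (K + L), (itemsAt Γ w A τ K s).card := Finset.card_biUnion_le
  have h3 : ∑ s ∈ Finset.Ico 1 (K + L), (itemsAt Γ w A τ K s).card =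
      (itemsAt Γ w A τ K 1).card + ∑ s ∈ Finset.Ico 2 K, (itemsAt Γ w A τ K s).card +
        ∑ s ∈ Finset.Ico K (K + L), (itemsAt Γ w A τ K s).card := by
    rw [← Finset.sum_Ico_consecutive _ (show 1 ≤ 2 by omega) (show 2 ≤ K + L by omega),
      ← Finset.sum_Ico_consecutive _ (show 2 ≤ K by omega) (show K ≤ K + L by omega)]
    rw [show Finset.Ico 1 2 = {1} from rfl, Finset.sum_singleton, Nat.add_assoc]
  set F : Finset V := Finset.univ.filter fun x => 3 ≤ Γ.deg x with hF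
  have h4 := at_one h hK
  rw [← hF] at h4
  have h5 : ∑ s ∈ Finset.Ico 2 K, (itemsAt Γ w A τ K s).card ≤
      ∑ x ∈ F, ∑ s ∈ Finset.Ico 2 K,
        Γ.lng x * (Γ.deg x - 1) * (2 * Fintype.card X - 1) ^ (K - s - 1) := by
    rw [Finset.sum_comm]
    refine Finset.sum_le_sum fun s hs => ?_
    obtain ⟨hs1, hs2⟩ := Finset.mem_Ico.1 hs
    exact at_mid h hs1 hs2
  have h6 : ∑ s ∈ Finset.Ico K (K + L), (itemsAt Γ w A τ K s).card ≤
      ∑ x ∈ F, L * Γ.lng x := by
    calc _ ≤ ∑ s ∈ Finset.Ico K (K + L), ∑ x ∈ F, Γ.lng x := by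
          refine Finset.sum_le_sum fun s hs => ?_
          obtain ⟨hs1, hs2⟩ := Finset.mem_Ico.1 hs
          exact at_end h (by omega) hs1 hs2
      _ = _ := by
          rw [Finset.sum_const, Nat.card_Ico, Nat.add_sub_cancel_left, smul_eq_mul,
            Finset.mul_sum]
  have h7 : (∑ x ∈ F, (Γ.deg x - 1) *
        ((Γ.deg x - Γ.lng x) * (2 * Fintype.card X - 1) ^ (K - 2) +
        Γ.lng x * (2 * Fintype.card X - 1) ^ (K - 3))) +
      (∑ x ∈ F, ∑ s ∈ Finset.Ico 2 K,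
        Γ.lng x * (Γ.deg x - 1) * (2 * Fintype.card X - 1) ^ (K - s - 1)) +
      (∑ x ∈ F, L * Γ.lng x) ≤
      ∑ x ∈ F, (2 * Fintype.card X - 1) ^ (K - 2) * (Γ.deg x * (Γ.deg x - 1)) := by
    rw [← Finset.sum_add_distrib, ← Finset.sum_add_distrib]
    refine Finset.sum_le_sum fun x hx => ?_
    have hd : 3 ≤ Γ.deg x := (Finset.mem_filter.1 hx).2
    have hg : Γ.lng x ≤ Γ.deg x := by
      unfold XG.lng XG.deg
      refine Finset.card_le_card fun l hl => ?_
      exact Finset.mem_filter.2 ⟨Finset.mem_univ _, (Finset.mem_filter.1 hl).2.1⟩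
    exact arith_one (Γ.deg x) (Γ.lng x) (2 * Fintype.card X - 1) K L hK hd hg (by omega) hL
  omega

end Pool.Agent.RibLI
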