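import Pool.Agent.Lib.RibLI.Defs
import Pool.Agent.Lib.RibLI.C6

/-!
# Generic ribbon disc groups : module C8

(problem MP_cf50d6_gt; paper MP_cf50d6_gt_rib50.md)
-/

set_option autoImplicit false

open scoped Classical

namespace Pool.Agent.RibLI

open Pool.Agent.LIA

universe u

variable {V X : Type*} [Fintype V] [Fintype X] {Γ : XG V X} {w : ℕ → X × Bool} {N : ℕ}
  {A : Finset V} {τ : List (X × Bool) → ℕ} {K L : ℕ}

/-- the final arithmetic -/
private theorem c8_arith {n m Q S D C M : ℕ} (hn : 0 < n) (hQ : 0 < Q) (hm : m ≤ n)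
    (hC : 4 * (C + 1) ≤ Q) (h : S * (2 * n * Q) ≤ n * Q * D + m * (M * (2 * C))) :
    4 * S ≤ 2 * D + M := by
  have h1 : m * (M * (2 * C)) ≤ n * (M * (2 * C)) := Nat.mul_le_mul_right _ hm
  have h2 : n * (M * (4 * C)) ≤ n * (M * Q) :=
    Nat.mul_le_mul_left _ (Nat.mul_le_mul_left _ (by omega))
  have h3 : n * Q * (4 * S) ≤ n * Q * (2 * D + M) := by
    have e1 : n * Q * (4 * S) = 2 * (S * (2 * n * Q)) := by ring
    have e2 : n * Q * (2 * D + M) = 2 * (n * Q * D) + n * (M * Q) := by ring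
    have e3 : n * (M * (4 * C)) = 2 * (n * (M * (2 * C))) := by ring
    omega
  exact Nat.le_of_mul_le_mul_left h3 (Nat.mul_pos hn hQ)

theorem count_all {E : Type*} [Fintype E] (hX : 2 ≤ Fintype.card X)
    (hEX : Fintype.card E + 1 ≤ Fintype.card X) (hK : 3 ≤ K)
    (hL : 3 * L ≤ (2 * Fintype.card X - 1) ^ (K - 2))
    (hL' : 4 * (K + L) ≤ (2 * Fintype.card X - 1) ^ (K - 1))
    (w : E → ℕ → X × Bool) (N : E → ℕ) (A : E → Finset V) (τ : E → List (X × Bool) → ℕ)
    (h : ∀ e, Ctx Γ (w e) (N e) (A e) (τ e) K L) {M : Type*} [Fintype M] (mk : M → V)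
    (hdeep : ∀ e, ∀ v ∈ A e, ∀ t, t + K + L ≤ N e →
      (∀ s, 1 ≤ s → s < K + L → Γ.deg (Γ.run (w e) v (t + s)) = 2) →
      ∃ s μ, 1 ≤ s ∧ s < K + L ∧ mk μ = Γ.run (w e) v (t + s)) :
    4 * ∑ e, (A e).card ≤ 2 * ∑ x, (Γ.deg x - 2) + Fintype.card M := by
  have hQpos : 0 < (2 * Fintype.card X - 1) ^ (K - 1) := Nat.pow_pos (by omega)
  have hQ : (2 * Fintype.card X - 1) ^ (K - 1) =
      (2 * Fintype.card X - 1) ^ (K - 2) * (2 * Fintype.card X - 1) := by
    rw [← pow_succ]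
    congr 1
    omega
  have hone : ∀ e, (A e).card * (2 * Fintype.card X * (2 * Fintype.card X - 1) ^ (K - 1)) ≤
      (∑ x ∈ Finset.univ.filter fun x => 3 ≤ Γ.deg x,
        (2 * Fintype.card X - 1) ^ (K - 2) * (Γ.deg x * (Γ.deg x - 1))) +
        Fintype.card M * (2 * (K + L - 1)) := fun e =>
    count_one (h e) hK hX hL mk (hdeep e)
  have hsum := Finset.sum_le_sum fun e (_ : e ∈ (Finset.univ : Finset E)) => hone e
  rw [← Finset.sum_mul, Finset.sum_add_distrib, Finset.sum_const, Finset.sum_const,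
    Finset.card_univ, smul_eq_mul, smul_eq_mul] at hsum
  have hdeg : ∀ x, Γ.deg x ≤ 2 * Fintype.card X := by
    intro x
    unfold XG.deg
    refine (Finset.card_le_univ _).trans (le_of_eq ?_)
    rw [Fintype.card_prod, Fintype.card_bool, Nat.mul_comm]
  have hD : Fintype.card E * ∑ x ∈ Finset.univ.filter (fun x => 3 ≤ Γ.deg x),
        (2 * Fintype.card X - 1) ^ (K - 2) * (Γ.deg x * (Γ.deg x - 1)) ≤
      Fintype.card X * (2 * Fintype.card X - 1) ^ (K - 1) * ∑ x, (Γ.deg x - 2) := by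
    calc _ ≤ ∑ x ∈ Finset.univ.filter (fun x => 3 ≤ Γ.deg x),
          Fintype.card X * (2 * Fintype.card X - 1) ^ (K - 1) * (Γ.deg x - 2) := by
          rw [Finset.mul_sum]
          refine Finset.sum_le_sum fun x hx => ?_
          have h3 : 3 ≤ Γ.deg x := (Finset.mem_filter.1 hx).2
          have h4 := arith_two (Fintype.card E) (Fintype.card X) (Γ.deg x) hEX h3 (hdeg x)
          calc Fintype.card E * ((2 * Fintype.card X - 1) ^ (K - 2) * (Γ.deg x * (Γ.deg x - 1)))
              = (2 * Fintype.card X - 1) ^ (K - 2) *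
                (Fintype.card E * (Γ.deg x * (Γ.deg x - 1))) := by ring
            _ ≤ (2 * Fintype.card X - 1) ^ (K - 2) *
                (Fintype.card X * (2 * Fintype.card X - 1) * (Γ.deg x - 2)) :=
                Nat.mul_le_mul_left _ h4
            _ = _ := by rw [hQ]; ring
      _ ≤ ∑ x, Fintype.card X * (2 * Fintype.card X - 1) ^ (K - 1) * (Γ.deg x - 2) :=
          Finset.sum_le_sum_of_subset (Finset.filter_subset _ _)
      _ = _ := by rw [← Finset.mul_sum]
  have hC : 4 * (K + L - 1 + 1) ≤ (2 * Fintype.card X - 1) ^ (K - 1) := by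
    rw [show K + L - 1 + 1 = K + L by omega]
    exact hL'
  exact c8_arith (n := Fintype.card X) (m := Fintype.card E) (by omega) hQpos (by omega) hC
    (hsum.trans (Nat.add_le_add_right hD _))

end Pool.Agent.RibLI
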