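import Pool.Agent.Lib.RibLI.Defs

/-!
# Generic ribbon disc groups : module D1, walks of the graph and of its `X`-part

(helper50, problem MP_cf50d6_gt; paper MP_cf50d6_gt_rib50.md)
-/

set_option autoImplicit false

open scoped Classical

namespace Pool.Agent.RibLI

open Pool.Agent.LIA

universe u

variable {V X E : Type*} {Γ : LG V (X ⊕ E)} {W : E → List (X × Bool)} {i j : E → X}

/-- the first step of a run -/
theorem XG.run_succ' {V X : Type*} (Γ : XG V X) (w : ℕ → X × Bool) (v : V) (s : ℕ) :
    Γ.run w v (s + 1) = Γ.run (fun r => w (r + 1)) (Γ.nx v (w 0)) s := by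
  induction s with
  | zero => rfl
  | succ s ih =>
    rw [XG.run, ih]
    rfl

/-- a readable letter is a step -/
theorem xg_step {v : V} {l : X × Bool} (h : (xg Γ).av v l) :
    Γ.Step v (Sum.inl l.1, l.2) ((xg Γ).nx v l) := by
  have h1 : ∃ v', Γ.Step v (Sum.inl l.1, l.2) v' := h
  change Γ.Step v (Sum.inl l.1, l.2)
    (if h : ∃ v', Γ.Step v (Sum.inl l.1, l.2) v' then h.choose else v)
  rw [dif_pos h1]
  exact h1.choose_spec

/-- a step with a letter of `X` -/
theorem xg_of_step {v v' : V} {l : X × Bool} (h : Γ.Step v (Sum.inl l.1, l.2) v') :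
    (xg Γ).av v l ∧ (xg Γ).nx v l = v' := by
  have h1 : (xg Γ).av v l := ⟨v', h⟩
  exact ⟨h1, LG.step_det (xg_step h1) h⟩

theorem walkA_iff (L : List (X × Bool)) (d : X × Bool) (v v' : V) :
    Γ.Walk v (L.map fun l => (Sum.inl l.1, l.2)) v' ↔
      (xg Γ).Reads (lw L d) v L.length ∧ (xg Γ).run (lw L d) v L.length = v' := by
  induction L generalizing v with
  | nil =>
    constructor
    · intro h
      exact ⟨fun s hs => absurd hs (Nat.not_lt_zero _), h⟩
    · rintro ⟨-, h⟩
      exact h
  | cons l L ih =>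
    have e1 : (fun r => lw (l :: L) d (r + 1)) = lw L d := by
      funext r
      simp [lw]
    have e0 : lw (l :: L) d 0 = l := by simp [lw]
    rw [List.map_cons, LG.walk_cons]
    constructor
    · rintro ⟨x, hx, hw⟩
      obtain ⟨h1, h2⟩ := xg_of_step hx
      obtain ⟨h3, h4⟩ := (ih x).1 hw
      refine ⟨?_, ?_⟩
      · intro s hs
        cases s with
        | zero =>
          rw [e0]
          exact h1
        | succ s =>
          have h5 := h3 s (by simpa using hs)
          rw [XG.run_succ', e1, e0, h2]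
          have e2 : lw (l :: L) d (s + 1) = lw L d s := congrFun e1 s
          rw [e2]
          exact h5
      · rw [List.length_cons, XG.run_succ', e1, e0, h2]
        exact h4
    · rintro ⟨h1, h2⟩
      have h3 : (xg Γ).av v l := by
        have := h1 0 (by simp)
        rw [e0] at this
        exact this
      refine ⟨(xg Γ).nx v l, xg_step h3, (ih _).2 ⟨?_, ?_⟩⟩
      · intro s hs
        have h4 := h1 (s + 1) (by simpa using hs)
        rw [XG.run_succ', e1, e0] at h4
        have e2 : lw (l :: L) d (s + 1) = lw L d s := congrFun e1 s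
        rw [e2] at h4
        exact h4
      · rw [List.length_cons, XG.run_succ', e1, e0] at h2
        exact h2

theorem polyA_iff (e : E) (d : X × Bool) (v : V) :
    Γ.Walk v (relA W e) v ↔ (xg Γ).Reads (lw (W e) d) v (W e).length ∧
      (v, Sum.inr e, (xg Γ).run (lw (W e) d) v (W e).length) ∈ Γ.F := by
  unfold relA
  rw [LG.walk_append]
  constructor
  · rintro ⟨x, h1, h2⟩
    rw [LG.walk_singleton, LG.step_false] at h2
    obtain ⟨h3, h4⟩ := (walkA_iff (W e) d v x).1 h1
    rw [h4]
    exact ⟨h3, h2⟩
  · rintro ⟨h1, h2⟩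
    refine ⟨_, (walkA_iff (W e) d v _).2 ⟨h1, rfl⟩, ?_⟩
    rw [LG.walk_singleton, LG.step_false]
    exact h2

end Pool.Agent.RibLI
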