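import Pool.Agent.Lib.RibLI.Defs
import Pool.Agent.Lib.RibLI.D1

/-!
# Generic ribbon disc groups : module D3

(problem MP_cf50d6_gt; paper MP_cf50d6_gt_rib50.md)
-/

set_option autoImplicit false

open scoped Classical

namespace Pool.Agent.RibLI

open Pool.Agent.LIA

universe u

variable {V X E : Type*} {Γ : LG V (X ⊕ E)} {W : E → List (X × Bool)} {i j : E → X}

/-- the three kinds of passes of an edge `t_e` -/
private theorem d3_kind {e : E} {u v : V} {p : V × (E ⊕ E) × ℕ}
    (hp : Pass Γ (relR W i j) (u, Sum.inr e, v) p) :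
    (p = (u, Sum.inl e, (W e).length) ∧ Γ.Walk u (relA W e) u) ∨
      (p = (u, Sum.inr e, 0) ∧ SqR Γ i j e u v) ∨
      (p.2 = (Sum.inr e, 2) ∧ (p.1, Sum.inl (i e), u) ∈ Γ.F ∧ SqL Γ i j e u v) := by
  obtain ⟨a, z, s⟩ := p
  obtain ⟨hw, x, y, l, hl, h1, h2, h3⟩ := hp
  dsimp only at hw hl h1
  rcases z with e' | e'
  · left
    change Γ.Walk a (relA W e') a at hw
    change (relA W e')[s]? = some l at hl
    change Γ.Walk a ((relA W e').take s) x at h1
    have hlen : ((W e').map (fun l : X × Bool => ((Sum.inl l.1 : X ⊕ E), l.2))).length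
        = (W e').length := List.length_map _
    rcases lt_trichotomy s (W e').length with hs | hs | hs
    · exfalso
      unfold relA at hl
      rw [List.getElem?_append_left (by rw [hlen]; exact hs), List.getElem?_map] at hl
      obtain ⟨m, hm, hm'⟩ := Option.map_eq_some_iff.1 hl
      subst hm'
      unfold edg at h3
      dsimp only at h3
      split at h3 <;> simp at h3
    · subst hs
      unfold relA at hl h1 hw
      rw [List.getElem?_append_right (by rw [hlen]), hlen, Nat.sub_self] at hl
      rw [List.take_append_of_le_length (by rw [hlen]), List.take_of_length_le (by rw [hlen])] at h1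
      have hl' : l = (Sum.inr e', false) := by simpa using hl.symm
      subst hl'
      have h4 : (y, (Sum.inr e' : X ⊕ E), x) = (u, Sum.inr e, v) := by
        simpa [edg] using h3
      obtain ⟨rfl, h5⟩ := Prod.mk.inj h4
      obtain ⟨h6, rfl⟩ := Prod.mk.inj h5
      have h7 := Sum.inr.inj h6
      subst h7
      obtain ⟨b, hb, hb'⟩ := LG.walk_append.1 hw
      have h8 := LG.walk_det hb h1
      subst h8
      rw [LG.walk_singleton] at hb'
      have h9 := LG.step_det hb' h2
      subst h9
      refine ⟨rfl, ?_⟩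
      exact hw
    · exfalso
      unfold relA at hl
      rw [List.getElem?_eq_none] at hl
      · cases hl
      · rw [List.length_append, hlen]
        simpa using hs
  · right
    change Γ.Walk a (relB i j e') a at hw
    change (relB i j e')[s]? = some l at hl
    change Γ.Walk a ((relB i j e').take s) x at h1
    obtain ⟨b, hb, c, hc, d, hd, b', hb', hbb⟩ := hw
    rw [LG.walk_nil] at hbb
    subst hbb
    rw [LG.step_true] at hb hc
    rw [LG.step_false] at hd hb'
    match s, hl, h1 with
    | 0, hl, h1 =>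
      left
      have hl' : l = (Sum.inr e', true) := by
        have : some ((Sum.inr e' : X ⊕ E), true) = some l := hl
        exact (Option.some.inj this).symm
      subst hl'
      have h4 : (x, (Sum.inr e' : X ⊕ E), y) = (u, Sum.inr e, v) := by
        simpa [edg] using h3
      obtain ⟨rfl, h5⟩ := Prod.mk.inj h4
      obtain ⟨h6, rfl⟩ := Prod.mk.inj h5
      have h7 := Sum.inr.inj h6
      subst h7
      have h8 : b' = x := h1
      subst h8
      rw [LG.step_true] at h2
      have h9 := Γ.det h2 hb
      subst h9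
      exact ⟨rfl, d, c, hb', hc, hd⟩
    | 1, hl, h1 =>
      exfalso
      have hl' : l = (Sum.inl (j e'), true) := by
        have : some ((Sum.inl (j e') : X ⊕ E), true) = some l := hl
        exact (Option.some.inj this).symm
      subst hl'
      simp [edg] at h3
    | 2, hl, h1 =>
      right
      have hl' : l = (Sum.inr e', false) := by
        have : some ((Sum.inr e' : X ⊕ E), false) = some l := hl
        exact (Option.some.inj this).symm
      subst hl'
      have h4 : (y, (Sum.inr e' : X ⊕ E), x) = (u, Sum.inr e, v) := by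
        simpa [edg] using h3
      obtain ⟨rfl, h5⟩ := Prod.mk.inj h4
      obtain ⟨h6, rfl⟩ := Prod.mk.inj h5
      have h7 := Sum.inr.inj h6
      subst h7
      have h8 : Γ.Walk b' [((Sum.inr e' : X ⊕ E), true), (Sum.inl (j e'), true)] x := h1
      obtain ⟨b₁, hb₁, c₁, hc₁, hcc⟩ := h8
      rw [LG.walk_nil] at hcc
      subst hcc
      rw [LG.step_true] at hb₁ hc₁
      have h9 := Γ.det hb₁ hb
      subst h9
      have h10 := Γ.det hc₁ hc
      subst h10
      rw [LG.step_false] at h2
      have h11 := Γ.cod h2 hd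
      subst h11
      exact ⟨rfl, hb', b', b₁, hb', hc, hb⟩
    | 3, hl, h1 =>
      exfalso
      have hl' : l = (Sum.inl (i e'), false) := by
        have : some ((Sum.inl (i e') : X ⊕ E), false) = some l := hl
        exact (Option.some.inj this).symm
      subst hl'
      simp [edg] at h3
    | s + 4, hl, h1 =>
      exfalso
      have : (none : Option ((X ⊕ E) × Bool)) = some l := hl
      cases this

theorem pass_t (h : NoFree Γ (relR W i j)) {e : E} {u v : V} (hf : (u, Sum.inr e, v) ∈ Γ.F) :
    (SqR Γ i j e u v ∧ SqL Γ i j e u v) ∨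
      ((SqR Γ i j e u v ∨ SqL Γ i j e u v) ∧ Γ.Walk u (relA W e) u) := by
  obtain ⟨p, p', hne, hp, hp'⟩ := h _ hf
  rcases d3_kind hp with ⟨h1, h2⟩ | ⟨h1, h2⟩ | ⟨h1, h2, h3⟩ <;>
    rcases d3_kind hp' with ⟨k1, k2⟩ | ⟨k1, k2⟩ | ⟨k1, k2, k3⟩
  · exact absurd (h1.trans k1.symm) hne
  · exact Or.inr ⟨Or.inl k2, h2⟩
  · exact Or.inr ⟨Or.inr k3, h2⟩
  · exact Or.inr ⟨Or.inl h2, k2⟩
  · exact absurd (h1.trans k1.symm) hne
  · exact Or.inl ⟨h2, k3⟩
  · exact Or.inr ⟨Or.inr h3, k2⟩
  · exact Or.inl ⟨k2, h3⟩
  · exact absurd (Prod.ext (Γ.cod h2 k2) (h1.trans k1.symm)) hne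

end Pool.Agent.RibLI
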