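import Pool.Agent.Lib.RibLI.Defs
import Pool.Agent.Lib.RibLI.D3

/-!
# Generic ribbon disc groups : module D2

(problem MP_cf50d6_gt; paper MP_cf50d6_gt_rib50.md)
-/

set_option autoImplicit false

open scoped Classical

namespace Pool.Agent.RibLI

open Pool.Agent.LIA

universe u

variable {V X E : Type*} {Γ : LG V (X ⊕ E)} {W : E → List (X × Bool)} {i j : E → X}

theorem polyB_iff (e : E) (v : V) :
    Γ.Walk v (relB i j e) v ↔ ∃ y, (v, Sum.inr e, y) ∈ Γ.F ∧ SqR Γ i j e v y := by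
  constructor
  · rintro ⟨b, hb, c, hc, d, hd, b', hb', hbb⟩
    rw [LG.walk_nil] at hbb
    subst hbb
    rw [LG.step_true] at hb hc
    rw [LG.step_false] at hd hb'
    exact ⟨b, hb, d, c, hb', hc, hd⟩
  · rintro ⟨y, hy, u', v', h1, h2, h3⟩
    refine ⟨y, ?_, v', ?_, u', ?_, v, ?_, ?_⟩
    · rw [LG.step_true]; exact hy
    · rw [LG.step_true]; exact h2
    · rw [LG.step_false]; exact h3
    · rw [LG.step_false]; exact h1
    · rw [LG.walk_nil]

/-- the edge `f` with a label in `E` has a square on the right side -/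
private def d2R (Γ : LG V (X ⊕ E)) (i j : E → X) (f : V × (X ⊕ E) × V) : Prop :=
  ∃ e, f.2.1 = Sum.inr e ∧ SqR Γ i j e f.1 f.2.2

/-- the edge `f` with a label in `E` has a square on the left side -/
private def d2L (Γ : LG V (X ⊕ E)) (i j : E → X) (f : V × (X ⊕ E) × V) : Prop :=
  ∃ e, f.2.1 = Sum.inr e ∧ SqL Γ i j e f.1 f.2.2

private theorem d2_poly [Fintype V] [Fintype E] :
    (Finset.univ.filter fun p : V × E => Γ.Walk p.1 (relB i j p.2) p.1).card =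
      (Γ.F.filter (d2R Γ i j)).card := by
  refine Finset.card_bij
    (fun p hp => (p.1, Sum.inr p.2, ((polyB_iff p.2 p.1).1 (Finset.mem_filter.1 hp).2).choose)) ?_ ?_ ?_
  · intro p hp
    have h := ((polyB_iff (Γ := Γ) (i := i) (j := j) p.2 p.1).1 (Finset.mem_filter.1 hp).2).choose_spec
    exact Finset.mem_filter.2 ⟨h.1, p.2, rfl, h.2⟩
  · rintro ⟨a, e⟩ hp ⟨a', e'⟩ hp' heq
    obtain ⟨h1, h2⟩ := Prod.mk.inj heq
    obtain ⟨h3, h4⟩ := Prod.mk.inj h2
    dsimp only at h1 h3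
    rw [h1, Sum.inr.inj h3]
  · rintro ⟨u, l, v⟩ hf
    obtain ⟨hf1, e, he, hs⟩ := Finset.mem_filter.1 hf
    dsimp only at he hs
    subst he
    have hw : Γ.Walk u (relB i j e) u := (polyB_iff e u).2 ⟨v, hf1, hs⟩
    have hp : (u, e) ∈ (Finset.univ.filter fun p : V × E => Γ.Walk p.1 (relB i j p.2) p.1) :=
      Finset.mem_filter.2 ⟨Finset.mem_univ _, hw⟩
    refine ⟨(u, e), hp, ?_⟩
    have h := ((polyB_iff (Γ := Γ) (i := i) (j := j) e u).1 (Finset.mem_filter.1 hp).2).choose_spec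
    have h' := Γ.det h.1 hf1
    dsimp only
    rw [h']

private theorem d2_swap :
    (Γ.F.filter (d2R Γ i j)).card = (Γ.F.filter (d2L Γ i j)).card := by
  have key : ∀ f ∈ Γ.F.filter (d2R Γ i j), ∃ g ∈ Γ.F.filter (d2L Γ i j),
      ∃ e, f.2.1 = Sum.inr e ∧ g.2.1 = Sum.inr e ∧ (f.1, Sum.inl (i e), g.1) ∈ Γ.F ∧
        (f.2.2, Sum.inl (j e), g.2.2) ∈ Γ.F := by
    rintro ⟨u, l, v⟩ hf
    obtain ⟨hf1, e, he, u', v', h1, h2, h3⟩ := Finset.mem_filter.1 hf
    dsimp only at he h1 h2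
    subst he
    exact ⟨(u', Sum.inr e, v'), Finset.mem_filter.2 ⟨h3, e, rfl, u, v, h1, h2, hf1⟩, e, rfl, rfl, h1, h2⟩
  choose! g hg1 hg2 using key
  refine Finset.card_bij (fun f _ => g f) hg1 ?_ ?_
  · rintro ⟨u, l, v⟩ hf ⟨u₁, l₁, v₁⟩ hf₁ heq
    obtain ⟨e, he, hge, h1, h2⟩ := hg2 _ hf
    obtain ⟨e₁, he₁, hge₁, k1, k2⟩ := hg2 _ hf₁
    dsimp only at he he₁ h1 h2 k1 k2
    subst he
    subst he₁
    rw [← heq] at hge₁ k1 k2
    have h3 : e = e₁ := by
      rw [hge] at hge₁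
      exact Sum.inr.inj hge₁
    subst h3
    rw [Γ.cod h1 k1, Γ.cod h2 k2]
  · rintro ⟨u, l, v⟩ hf
    obtain ⟨hf1, e, he, u', v', h1, h2, h3⟩ := Finset.mem_filter.1 hf
    dsimp only at he h1 h2
    subst he
    have hm : (u', (Sum.inr e : X ⊕ E), v') ∈ Γ.F.filter (d2R Γ i j) :=
      Finset.mem_filter.2 ⟨h3, e, rfl, u, v, h1, h2, hf1⟩
    refine ⟨_, hm, ?_⟩
    obtain ⟨e₁, he₁, hge₁, k1, k2⟩ := hg2 _ hm
    dsimp only at he₁ k1 k2
    have h4 := Sum.inr.inj he₁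
    subst h4
    have h5 := Γ.det k1 h1
    have h6 := Γ.det k2 h2
    exact Prod.ext h5 (Prod.ext hge₁ h6)

theorem card_B [Fintype V] [Fintype E] (h : NoFree Γ (relR W i j)) :
    2 * (Finset.univ.filter fun p : V × E => Γ.Walk p.1 (relB i j p.2) p.1).card +
      (one Γ i j).card = 2 * (Γ.F.filter fun f => ∃ e, f.2.1 = Sum.inr e).card := by
  rw [d2_poly]
  have hsw := d2_swap (Γ := Γ) (i := i) (j := j)
  set R := Γ.F.filter (d2R Γ i j) with hR
  set L := Γ.F.filter (d2L Γ i j) with hL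
  have hT : (Γ.F.filter fun f => ∃ e, f.2.1 = Sum.inr e) = R ∪ L := by
    ext ⟨u, l, v⟩
    simp only [hR, hL, Finset.mem_union, Finset.mem_filter]
    constructor
    · rintro ⟨hf, e, he⟩
      subst he
      rcases pass_t h hf with ⟨h1, _⟩ | ⟨h1 | h1, _⟩
      · exact Or.inl ⟨hf, e, rfl, h1⟩
      · exact Or.inl ⟨hf, e, rfl, h1⟩
      · exact Or.inr ⟨hf, e, rfl, h1⟩
    · rintro (⟨hf, e, he, _⟩ | ⟨hf, e, he, _⟩)
      · exact ⟨hf, e, he⟩
      · exact ⟨hf, e, he⟩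
  have hO : one Γ i j = (R \ L) ∪ (L \ R) := by
    ext ⟨u, l, v⟩
    simp only [one, hR, hL, Finset.mem_union, Finset.mem_filter, Finset.mem_sdiff, d2R, d2L]
    constructor
    · rintro ⟨hf, e, he, ⟨h1, h2⟩ | ⟨h1, h2⟩⟩
      · subst he
        refine Or.inl ⟨⟨hf, e, rfl, h1⟩, ?_⟩
        rintro ⟨_, e', he', h3⟩
        have h4 := Sum.inr.inj he'
        subst h4
        exact h2 h3
      · subst he
        refine Or.inr ⟨⟨hf, e, rfl, h1⟩, ?_⟩
        rintro ⟨_, e', he', h3⟩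
        have h4 := Sum.inr.inj he'
        subst h4
        exact h2 h3
    · rintro (⟨⟨hf, e, he, h1⟩, h2⟩ | ⟨⟨hf, e, he, h1⟩, h2⟩)
      · exact ⟨hf, e, he, Or.inl ⟨h1, fun h3 => h2 ⟨hf, e, he, h3⟩⟩⟩
      · exact ⟨hf, e, he, Or.inr ⟨h1, fun h3 => h2 ⟨hf, e, he, h3⟩⟩⟩
  have hd : Disjoint (R \ L) (L \ R) := by
    rw [Finset.disjoint_left]
    intro f h1 h2
    exact (Finset.mem_sdiff.1 h1).2 (Finset.mem_sdiff.1 h2).1
  have e1 : (one Γ i j).card = (R \ L).card + (L \ R).card := by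
    rw [hO, Finset.card_union_of_disjoint hd]
  have e2 : (R ∪ L).card + (R ∩ L).card = R.card + L.card := Finset.card_union_add_card_inter R L
  have e3 : (R \ L).card + (R ∩ L).card = R.card := Finset.card_sdiff_add_card_inter R L
  have e4 : (L \ R).card + (L ∩ R).card = L.card := Finset.card_sdiff_add_card_inter L R
  rw [Finset.inter_comm L R] at e4
  rw [hT, e1]
  omega

end Pool.Agent.RibLI
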