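import Pool.Agent.Lib.RibLI.Defs

/-!
# Generic ribbon disc groups : module D7

(problem MP_cf50d6_gt; paper MP_cf50d6_gt_rib50.md)
-/

set_option autoImplicit false

open scoped Classical

namespace Pool.Agent.RibLI

open Pool.Agent.LIA

universe u

variable {V X E : Type*} {Γ : LG V (X ⊕ E)} {W : E → List (X × Bool)} {i j : E → X}

private theorem d7_step {v : V} {l : X × Bool} (h : (xg Γ).av v l) :
    Γ.Step v (Sum.inl l.1, l.2) ((xg Γ).nx v l) := by
  have h0 : ∃ v', Γ.Step v (Sum.inl l.1, l.2) v' := h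
  change Γ.Step v (Sum.inl l.1, l.2)
    (if h : ∃ v', Γ.Step v (Sum.inl l.1, l.2) v' then h.choose else v)
  rw [dif_pos h0]
  exact h0.choose_spec

/-- the edge of a pair `(v, l)` and its direction -/
private noncomputable def d7_map (Γ : LG V (X ⊕ E)) (p : V × (X × Bool)) :
    (V × (X ⊕ E) × V) × Bool :=
  (if p.2.2 then (p.1, Sum.inl p.2.1, (xg Γ).nx p.1 p.2)
    else ((xg Γ).nx p.1 p.2, Sum.inl p.2.1, p.1), p.2.2)

theorem card_X [Fintype V] [Fintype X] :
    ∑ v, (xg Γ).deg v = 2 * (Γ.F.filter fun f => ∃ x, f.2.1 = Sum.inl x).card := by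
  have h1 : ∑ v, (xg Γ).deg v =
      (Finset.univ.filter fun p : V × (X × Bool) => (xg Γ).av p.1 p.2).card := by
    rw [Finset.card_filter, ← Finset.univ_product_univ, Finset.sum_product]
    refine Finset.sum_congr rfl fun v _ => ?_
    rw [← Finset.card_filter]
    rfl
  have h2 : 2 * (Γ.F.filter fun f => ∃ x, f.2.1 = Sum.inl x).card =
      ((Γ.F.filter fun f => ∃ x, f.2.1 = Sum.inl x) ×ˢ (Finset.univ : Finset Bool)).card := by
    rw [Finset.card_product, Finset.card_univ, Fintype.card_bool, mul_comm]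
  rw [h1, h2]
  refine Finset.card_bij (fun p _ => d7_map Γ p) ?_ ?_ ?_
  · rintro ⟨v, x, b⟩ hp
    have h := d7_step (Finset.mem_filter.1 hp).2
    refine Finset.mem_product.2 ⟨Finset.mem_filter.2 ?_, Finset.mem_univ _⟩
    cases b
    · exact ⟨LG.step_false.1 h, x, rfl⟩
    · exact ⟨LG.step_true.1 h, x, rfl⟩
  · rintro ⟨v, x, b⟩ _ ⟨v', x', b'⟩ _ h
    have hb : b = b' := congrArg Prod.snd h
    subst hb
    cases b
    · have h3 := congrArg Prod.fst h
      simp only [d7_map, Bool.false_eq_true, if_false, Prod.mk.injEq, Sum.inl.injEq] at h3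
      rw [h3.2.1, h3.2.2]
    · have h3 := congrArg Prod.fst h
      simp only [d7_map, if_true, Prod.mk.injEq, Sum.inl.injEq] at h3
      rw [h3.1, h3.2.1]
  · rintro ⟨⟨u, s, v⟩, b⟩ hf
    obtain ⟨hf1, -⟩ := Finset.mem_product.1 hf
    obtain ⟨hf2, x, hx⟩ := Finset.mem_filter.1 hf1
    have hx' : s = Sum.inl x := hx
    subst hx'
    cases b
    · have hs : Γ.Step v (Sum.inl x, false) u := LG.step_false.2 hf2
      have ha : (xg Γ).av v (x, false) := ⟨u, hs⟩
      have hn : (xg Γ).nx v (x, false) = u := LG.step_det (d7_step ha) hs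
      refine ⟨(v, x, false), Finset.mem_filter.2 ⟨Finset.mem_univ _, ha⟩, ?_⟩
      simp only [d7_map, Bool.false_eq_true, if_false, hn]
    · have hs : Γ.Step u (Sum.inl x, true) v := LG.step_true.2 hf2
      have ha : (xg Γ).av u (x, true) := ⟨v, hs⟩
      have hn : (xg Γ).nx u (x, true) = v := LG.step_det (d7_step ha) hs
      refine ⟨(u, x, true), Finset.mem_filter.2 ⟨Finset.mem_univ _, ha⟩, ?_⟩
      simp only [d7_map, if_true, hn]

end Pool.Agent.RibLI
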