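import Pool.Agent.Lib.RibLI.Defs
import Pool.Agent.Lib.RibLI.D1
import Pool.Agent.Lib.RibLI.D3

/-!
# Generic ribbon disc groups : module D8a

(helper94, problem MP_cf50d6_gt; paper MP_cf50d6_gt_rib50.md)

A stretch of vertices of degree 2 without one-sided edges with labels in `E` has no edges with labels in `E` : otherwise
the word would be constant along the stretch.
-/

set_option autoImplicit false

open scoped Classical

namespace Pool.Agent.RibLI

open Pool.Agent.LIA

universe u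

variable {V X E : Type*} {Γ : LG V (X ⊕ E)} {W : E → List (X × Bool)} {i j : E → X}

/-- at a vertex of degree 2 there are only two letters -/
theorem d8a_two [Fintype X] (G : XG V X) {p : V} (h : G.deg p = 2) {a b l : X × Bool}
    (hab : a ≠ b) (ha : G.av p a) (hb : G.av p b) (hl : G.av p l) : l = a ∨ l = b := by
  by_contra hc
  rw [not_or] at hc
  obtain ⟨h1, h2⟩ := hc
  have hs : ({a, b, l} : Finset (X × Bool)) ⊆ Finset.univ.filter fun l => G.av p l := by
    intro z hz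
    rw [Finset.mem_insert, Finset.mem_insert, Finset.mem_singleton] at hz
    rw [Finset.mem_filter]
    refine ⟨Finset.mem_univ _, ?_⟩
    rcases hz with rfl | rfl | rfl
    · exact ha
    · exact hb
    · exact hl
  have h3 := Finset.card_le_card hs
  have h4 : ({a, b, l} : Finset (X × Bool)).card = 3 := by
    rw [Finset.card_eq_three]
    exact ⟨a, b, l, hab, fun h => h1 h.symm, fun h => h2 h.symm, rfl⟩
  unfold XG.deg at h
  omega

/-- passing through a vertex of degree 2 with the letters `(x, true)` and `(x, false)` -/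
theorem d8a_pass [Fintype X] (G : XG V X) {p : V} (h : G.deg p = 2) {x : X} {l m : X × Bool}
    (h1 : G.av p (x, true)) (h2 : G.av p (x, false)) (hl : G.av p l) (hm : G.av p (linv m))
    (hlm : l ≠ linv m) : m = l ∧ l.1 = x := by
  have hab : ((x, true) : X × Bool) ≠ (x, false) := by
    intro h
    have := congrArg Prod.snd h
    simp at this
  have e1 := d8a_two G h hab h1 h2 hl
  have e2 := d8a_two G h hab h1 h2 hm
  have e3 : m = linv (linv m) := (linv_linv m).symm
  rcases e1 with e1 | e1 <;> rcases e2 with e2 | e2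
  · exact absurd (e1.trans e2.symm) hlm
  · rw [e2] at e3
    rw [e3, e1]
    exact ⟨rfl, rfl⟩
  · rw [e2] at e3
    rw [e3, e1]
    exact ⟨rfl, rfl⟩
  · exact absurd (e1.trans e2.symm) hlm

/-- the stretch is constant -/
theorem d8a_const [Fintype X] (G : XG V X) (w : ℕ → X × Bool) (v : V) {t D : ℕ}
    (hR : ∀ s < D, G.av (G.run w v (t + s)) (w (t + s)))
    (hred : ∀ s, s + 1 < D → w (t + s + 1) ≠ linv (w (t + s)))
    (hdeg : ∀ s, 1 ≤ s → s < D → G.deg (G.run w v (t + s)) = 2) {Q : V → Prop} {x : X}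
    (hQ : ∀ s, 1 ≤ s → s < D → Q (G.run w v (t + s)) →
      G.av (G.run w v (t + s)) (x, true) ∧ G.av (G.run w v (t + s)) (x, false) ∧
        Q (G.nx (G.run w v (t + s)) (x, true)) ∧ Q (G.nx (G.run w v (t + s)) (x, false)))
    {s₀ : ℕ} (h1 : 1 ≤ s₀) (h2 : s₀ < D) (h0 : Q (G.run w v (t + s₀))) :
    ∀ s, s + 1 < D → w (t + s) = w (t + s + 1) := by
  have key : ∀ r, r + 1 < D → Q (G.run w v (t + (r + 1))) →
      w (t + r) = w (t + r + 1) ∧ Q (G.run w v (t + r)) ∧ Q (G.run w v (t + (r + 2))) := by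
    intro r hr hq
    obtain ⟨a1, a2, q1, q2⟩ := hQ (r + 1) (by omega) hr hq
    have hl := hR (r + 1) hr
    obtain ⟨b1, b2⟩ := G.back _ _ (hR r (by omega))
    have e1 : G.nx (G.run w v (t + r)) (w (t + r)) = G.run w v (t + (r + 1)) := rfl
    rw [e1] at b1 b2
    obtain ⟨c1, c2⟩ := d8a_pass G (hdeg (r + 1) (by omega) hr) a1 a2 hl b1
      (hred r hr)
    have e2 : G.run w v (t + (r + 2)) = G.nx (G.run w v (t + (r + 1))) (w (t + (r + 1))) := rfl
    have q3 : ∀ l : X × Bool, l.1 = x → Q (G.nx (G.run w v (t + (r + 1))) l) := by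
      rintro ⟨y, b⟩ hy
      have hy' : y = x := hy
      subst hy'
      cases b
      · exact q2
      · exact q1
    refine ⟨c1, ?_, ?_⟩
    · rw [← b2]
      refine q3 _ ?_
      have : (linv (w (t + r))).1 = (w (t + r)).1 := rfl
      rw [this, c1]
      exact c2
    · rw [e2]
      exact q3 _ c2
  have up : ∀ s, s₀ ≤ s → s ≤ D → Q (G.run w v (t + s)) := by
    intro s hs
    induction s, hs using Nat.le_induction with
    | base => exact fun _ => h0
    | succ s hs ih =>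
      intro hD
      obtain ⟨r, rfl⟩ : ∃ r, s = r + 1 := ⟨s - 1, by omega⟩
      exact (key r (by omega) (ih (by omega))).2.2
  have down : ∀ k, k ≤ s₀ → Q (G.run w v (t + (s₀ - k))) := by
    intro k
    induction k with
    | zero => exact fun _ => h0
    | succ k ih =>
      intro hk
      have h3 := ih (by omega)
      have e3 : s₀ - k = (s₀ - (k + 1)) + 1 := by omega
      rw [e3] at h3
      exact (key _ (by omega) h3).2.1
  intro s hs
  refine (key s hs ?_).1
  by_cases hc : s₀ ≤ s + 1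
  · exact up (s + 1) hc (by omega)
  · have h5 := down (s₀ - (s + 1)) (by omega)
    have e5 : s₀ - (s₀ - (s + 1)) = s + 1 := by omega
    rw [e5] at h5
    exact h5

/-- an edge which is not one-sided has both squares -/
theorem d8a_both (h : NoFree Γ (relR W i j)) {e : E} {u y : V} (hf : (u, Sum.inr e, y) ∈ Γ.F)
    (hn : (u, Sum.inr e, y) ∉ one Γ i j) : SqR Γ i j e u y ∧ SqL Γ i j e u y := by
  rcases pass_t h hf with h1 | ⟨h1, -⟩
  · exact h1
  · by_contra hc
    apply hn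
    unfold one
    rw [Finset.mem_filter]
    refine ⟨hf, e, rfl, ?_⟩
    rcases h1 with h1 | h1
    · exact Or.inl ⟨h1, fun h2 => hc ⟨h1, h2⟩⟩
    · exact Or.inr ⟨h1, fun h2 => hc ⟨h2, h1⟩⟩

theorem deep_a [Fintype X] {K L : ℕ} (hW : Gen W i j K L) (hL : 1 ≤ L) (hK : 3 ≤ K)
    (h : NoFree Γ (relR W i j)) (d : X × Bool) {e : E} {v : V}
    (hp : Γ.Walk v (relA W e) v) {t : ℕ} (ht : t + K + L ≤ (W e).length)
    (h2 : ∀ s, 1 ≤ s → s < K + L → (xg Γ).deg ((xg Γ).run (lw (W e) d) v (t + s)) = 2)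
    (hno : ∀ s, 1 ≤ s → s < K + L → ∀ f ∈ one Γ i j,
      f.1 ≠ (xg Γ).run (lw (W e) d) v (t + s) ∧ f.2.2 ≠ (xg Γ).run (lw (W e) d) v (t + s)) :
    ∀ s, 1 ≤ s → s < K + L → ∀ e' y,
      ((xg Γ).run (lw (W e) d) v (t + s), Sum.inr e', y) ∉ Γ.F ∧
        (y, Sum.inr e', (xg Γ).run (lw (W e) d) v (t + s)) ∉ Γ.F := by
  obtain ⟨hR, -⟩ := (polyA_iff e d v).1 hp
  have hget : ∀ s, s < (W e).length → (W e)[s]? = some (lw (W e) d s) := by
    intro s hs
    unfold lw
    rw [List.getD_eq_getElem?_getD, List.getElem?_eq_getElem hs]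
    rfl
  have hfin : (∀ s, s + 1 < K + L → lw (W e) d (t + s) = lw (W e) d (t + s + 1)) → False := by
    intro hc
    have h3 := (hW.occ e e t (t + 1) (by omega) (by omega) (by
      intro r hr
      rw [hget _ (by omega), hget _ (by omega), hc r (by omega)]
      have e6 : t + 1 + r = t + r + 1 := by omega
      rw [e6])).2
    omega
  have hR' : ∀ s < K + L,
      (xg Γ).av ((xg Γ).run (lw (W e) d) v (t + s)) (lw (W e) d (t + s)) :=
    fun s hs => hR (t + s) (by omega)
  have hred : ∀ s, s + 1 < K + L → lw (W e) d (t + s + 1) ≠ linv (lw (W e) d (t + s)) :=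
    fun s hs => hW.red e (t + s) _ _ (hget _ (by omega)) (hget _ (by omega))
  have hT : ∀ {p q : V} {x : X}, (p, (Sum.inl x : X ⊕ E), q) ∈ Γ.F →
      (xg Γ).av p (x, true) ∧ (xg Γ).nx p (x, true) = q := by
    intro p q x hx
    exact xg_of_step (l := (x, true)) hx
  have hF : ∀ {p q : V} {x : X}, (q, (Sum.inl x : X ⊕ E), p) ∈ Γ.F →
      (xg Γ).av p (x, false) ∧ (xg Γ).nx p (x, false) = q := by
    intro p q x hx
    exact xg_of_step (l := (x, false)) hx
  intro s₀ h1 h3 e' y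
  constructor
  · intro hf
    refine hfin (d8a_const (xg Γ) (lw (W e) d) v hR' hred h2
      (Q := fun p => ∃ y, (p, (Sum.inr e' : X ⊕ E), y) ∈ Γ.F) (x := i e') ?_ h1 h3 ⟨y, hf⟩)
    rintro s hs hs' ⟨z, hz⟩
    obtain ⟨⟨u', v', r1, -, r3⟩, ⟨u'', v'', l1, -, l3⟩⟩ :=
      d8a_both h hz (fun hm => (hno s hs hs' _ hm).1 rfl)
    obtain ⟨a1, a2⟩ := hT r1
    obtain ⟨b1, b2⟩ := hF l1
    refine ⟨a1, b1, ?_, ?_⟩
    · rw [a2]
      exact ⟨v', r3⟩
    · rw [b2]
      exact ⟨v'', l3⟩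
  · intro hf
    refine hfin (d8a_const (xg Γ) (lw (W e) d) v hR' hred h2
      (Q := fun p => ∃ y, (y, (Sum.inr e' : X ⊕ E), p) ∈ Γ.F) (x := j e') ?_ h1 h3 ⟨y, hf⟩)
    rintro s hs hs' ⟨z, hz⟩
    obtain ⟨⟨u', v', -, r2, r3⟩, ⟨u'', v'', -, l2, l3⟩⟩ :=
      d8a_both h hz (fun hm => (hno s hs hs' _ hm).2 rfl)
    obtain ⟨a1, a2⟩ := hT r2
    obtain ⟨b1, b2⟩ := hF l2
    refine ⟨a1, b1, ?_, ?_⟩
    · rw [a2]
      exact ⟨u', r3⟩
    · rw [b2]
      exact ⟨u'', l3⟩

end Pool.Agent.RibLI
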