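import Pool.Agent.Lib.RibLI.Defs
import Pool.Agent.Lib.RibLI.D1

/-!
# Generic ribbon disc groups : module D4

(problem MP_cf50d6_gt; paper MP_cf50d6_gt_rib50.md)
-/

set_option autoImplicit false

open scoped Classical

namespace Pool.Agent.RibLI

open Pool.Agent.LIA

universe u

variable {V X E : Type*} {Γ : LG V (X ⊕ E)} {W : E → List (X × Bool)} {i j : E → X}

private theorem d4_congr (G : XG V X) {w w' : ℕ → X × Bool} {s : ℕ} (h : ∀ r < s, w r = w' r)
    (v : V) : G.run w v s = G.run w' v s := by
  induction s with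
  | zero => rfl
  | succ s ih =>
    change G.nx (G.run w v s) (w s) = G.nx (G.run w' v s) (w' s)
    rw [ih fun r hr => h r (Nat.lt_succ_of_lt hr), h s (Nat.lt_succ_self s)]

/-- a pass of an edge with a label in `X` whose starting point is on no edge with a label in `E` -/
private theorem d4_kind (d : X × Bool) {x : X} {u v : V}
    (hu : ∀ e y, (u, Sum.inr e, y) ∉ Γ.F ∧ (y, Sum.inr e, u) ∉ Γ.F) {p : V × (E ⊕ E) × ℕ}
    (hp : Pass Γ (relR W i j) (u, Sum.inl x, v) p) :
    ∃ (e : E) (a : V) (s : ℕ), p = (a, Sum.inl e, s) ∧ Γ.Walk a (relA W e) a ∧ s < (W e).length ∧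
      edg ((xg Γ).run (lw (W e) d) a s) (lw (W e) d s) ((xg Γ).run (lw (W e) d) a (s + 1)) =
        (u, x, v) := by
  obtain ⟨a, z, s⟩ := p
  obtain ⟨hw, X0, Y0, l, hl, h1, h2, h3⟩ := hp
  dsimp only at hw hl h1
  rcases z with e | e
  · change Γ.Walk a (relA W e) a at hw
    change (relA W e)[s]? = some l at hl
    change Γ.Walk a ((relA W e).take s) X0 at h1
    have hlen : ((W e).map (fun l : X × Bool => ((Sum.inl l.1 : X ⊕ E), l.2))).length
        = (W e).length := List.length_map _
    rcases Nat.lt_or_ge s (W e).length with hs | hs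
    · refine ⟨e, a, s, rfl, hw, hs, ?_⟩
      unfold relA at hl h1
      rw [List.getElem?_append_left (by rw [hlen]; exact hs), List.getElem?_map] at hl
      obtain ⟨m, hm, hm'⟩ := Option.map_eq_some_iff.1 hl
      subst hm'
      rw [List.take_append_of_le_length (by rw [hlen]; exact hs.le), ← List.map_take] at h1
      have h4 := ((walkA_iff ((W e).take s) d a X0).1 h1).2
      have h5 : ((W e).take s).length = s := by
        rw [List.length_take]
        exact min_eq_left hs.le
      rw [h5] at h4
      have h6 : (xg Γ).run (lw (W e) d) a s = X0 := by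
        rw [← h4]
        refine d4_congr _ (fun r hr => ?_) a
        unfold lw
        rw [List.getD_eq_getElem?_getD, List.getD_eq_getElem?_getD, List.getElem?_take_of_lt hr]
      have h7 : lw (W e) d s = m := by
        unfold lw
        rw [List.getD_eq_getElem?_getD, hm]
        rfl
      have h8 : (xg Γ).run (lw (W e) d) a (s + 1) = Y0 := by
        change (xg Γ).nx ((xg Γ).run (lw (W e) d) a s) (lw (W e) d s) = Y0
        rw [h6, h7]
        exact (xg_of_step h2).2
      rw [h8, h6, h7]
      obtain ⟨m1, m2⟩ := m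
      cases m2
      · have h9 : (Y0, (Sum.inl m1 : X ⊕ E), X0) = (u, Sum.inl x, v) := h3
        obtain ⟨h10, h11⟩ := Prod.mk.inj h9
        obtain ⟨h12, h13⟩ := Prod.mk.inj h11
        change (Y0, m1, X0) = (u, x, v)
        rw [h10, Sum.inl.inj h12, h13]
      · have h9 : (X0, (Sum.inl m1 : X ⊕ E), Y0) = (u, Sum.inl x, v) := h3
        obtain ⟨h10, h11⟩ := Prod.mk.inj h9
        obtain ⟨h12, h13⟩ := Prod.mk.inj h11
        change (X0, m1, Y0) = (u, x, v)
        rw [h10, Sum.inl.inj h12, h13]
    · exfalso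
      unfold relA at hl
      rw [List.getElem?_append_right (by rw [hlen]; exact hs), hlen] at hl
      rcases Nat.eq_zero_or_pos (s - (W e).length) with h0 | h0
      · rw [h0] at hl
        have hl' : l = (Sum.inr e, false) := by simpa using hl.symm
        subst hl'
        simp [edg] at h3
      · rw [List.getElem?_eq_none (by
          change 1 ≤ s - (W e).length
          exact h0)] at hl
        cases hl
  · exfalso
    change Γ.Walk a (relB i j e) a at hw
    change (relB i j e)[s]? = some l at hl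
    change Γ.Walk a ((relB i j e).take s) X0 at h1
    obtain ⟨b, hb, c, hc, dd, hd, b', hb', hbb⟩ := hw
    rw [LG.walk_nil] at hbb
    subst hbb
    rw [LG.step_true] at hb hc
    rw [LG.step_false] at hd hb'
    match s, hl, h1 with
    | 0, hl, h1 =>
      have hl' : l = (Sum.inr e, true) := by
        have : some ((Sum.inr e : X ⊕ E), true) = some l := hl
        exact (Option.some.inj this).symm
      subst hl'
      simp [edg] at h3
    | 1, hl, h1 =>
      have hl' : l = (Sum.inl (j e), true) := by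
        have : some ((Sum.inl (j e) : X ⊕ E), true) = some l := hl
        exact (Option.some.inj this).symm
      subst hl'
      have h4 : (X0, (Sum.inl (j e) : X ⊕ E), Y0) = (u, Sum.inl x, v) := by
        simpa [edg] using h3
      obtain ⟨rfl, h5⟩ := Prod.mk.inj h4
      have h8 : Γ.Walk b' [((Sum.inr e : X ⊕ E), true)] X0 := h1
      rw [LG.walk_singleton, LG.step_true] at h8
      exact (hu e b').2 h8
    | 2, hl, h1 =>
      have hl' : l = (Sum.inr e, false) := by
        have : some ((Sum.inr e : X ⊕ E), false) = some l := hl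
        exact (Option.some.inj this).symm
      subst hl'
      simp [edg] at h3
    | 3, hl, h1 =>
      have hl' : l = (Sum.inl (i e), false) := by
        have : some ((Sum.inl (i e) : X ⊕ E), false) = some l := hl
        exact (Option.some.inj this).symm
      subst hl'
      have h4 : (Y0, (Sum.inl (i e) : X ⊕ E), X0) = (u, Sum.inl x, v) := by
        simpa [edg] using h3
      obtain ⟨rfl, h5⟩ := Prod.mk.inj h4
      have h8 : Γ.Walk b' [((Sum.inr e : X ⊕ E), true), (Sum.inl (j e), true), (Sum.inr e, false)] X0 := h1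
      obtain ⟨b₁, hb₁, c₁, hc₁, d₁, hd₁, hcc⟩ := h8
      rw [LG.walk_nil] at hcc
      subst hcc
      rw [LG.step_true] at hb₁ hc₁
      rw [LG.step_false] at hd₁ h2
      have h9 := Γ.det hb₁ hb
      subst h9
      have h10 := Γ.det hc₁ hc
      subst h10
      have h11 := Γ.cod hd₁ hd
      subst h11
      have h12 := Γ.cod h2 hb'
      subst h12
      exact (hu e b₁).1 hb
    | s + 4, hl, h1 =>
      have : (none : Option ((X ⊕ E) × Bool)) = some l := hl
      cases this

theorem pass_x (h : NoFree Γ (relR W i j)) (d : X × Bool) {x : X} {u v : V}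
    (hf : (u, Sum.inl x, v) ∈ Γ.F)
    (hu : ∀ e y, (u, Sum.inr e, y) ∉ Γ.F ∧ (y, Sum.inr e, u) ∉ Γ.F) :
    ∃ p p' : E × V × ℕ, p ≠ p' ∧ ∀ r ∈ [p, p'], Γ.Walk r.2.1 (relA W r.1) r.2.1 ∧
      r.2.2 < (W r.1).length ∧ edg ((xg Γ).run (lw (W r.1) d) r.2.1 r.2.2) (lw (W r.1) d r.2.2)
        ((xg Γ).run (lw (W r.1) d) r.2.1 (r.2.2 + 1)) = (u, x, v) := by
  obtain ⟨p, p', hne, hp, hp'⟩ := h _ hf
  obtain ⟨e, a, s, h1, h2, h3, h4⟩ := d4_kind d hu hp
  obtain ⟨e', a', s', k1, k2, k3, k4⟩ := d4_kind d hu hp'
  refine ⟨(e, a, s), (e', a', s'), ?_, ?_⟩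
  · intro heq
    obtain ⟨h5, h6⟩ := Prod.mk.inj heq
    obtain ⟨h7, h8⟩ := Prod.mk.inj h6
    apply hne
    rw [h1, k1, h5, h7, h8]
  · intro r hr
    rcases List.mem_cons.1 hr with rfl | hr
    · exact ⟨h2, h3, h4⟩
    · rcases List.mem_cons.1 hr with rfl | hr
      · exact ⟨k2, k3, k4⟩
      · exact absurd hr List.not_mem_nil

end Pool.Agent.RibLI
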