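import Pool.Agent.Lib.RibLI.Defs
import Pool.Agent.Lib.RibLI.D1
import Pool.Agent.Lib.RibLI.D4
import Pool.Agent.Lib.RibLI.D8a

/-!
# Generic ribbon disc groups : module D8b

(problem MP_cf50d6_gt; paper MP_cf50d6_gt_rib50.md)

A stretch of vertices of degree 2 without edges with labels in `E` would be read twice, in the same direction or
backwards: impossible for generic words.
-/

set_option autoImplicit false

open scoped Classical

namespace Pool.Agent.RibLI

open Pool.Agent.LIA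

universe u

variable {V X E : Type*} {Γ : LG V (X ⊕ E)} {W : E → List (X × Bool)} {i j : E → X}

private theorem d8b_linv {X : Type*} {a b : X × Bool} (h : linv a = linv b) : a = b := by
  rw [← linv_linv a, h, linv_linv]

/-- the two letters at an inner vertex of a stretch -/
private theorem d8b_letters [Fintype X] (G : XG V X) {w : ℕ → X × Bool} {v : V} {N t D : ℕ}
    (hR : ∀ s < N, G.av (G.run w v s) (w s)) (hred : ∀ s, s + 1 < N → w (s + 1) ≠ linv (w s))
    (hD : t + D ≤ N) (hdeg : ∀ s, 1 ≤ s → s < D → G.deg (G.run w v (t + s)) = 2) {r : ℕ}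
    (hr : r + 1 < D) {l : X × Bool} (hl : G.av (G.run w v (t + (r + 1))) l) :
    l = w (t + r + 1) ∨ l = linv (w (t + r)) := by
  have h1 : G.av (G.run w v (t + (r + 1))) (w (t + r + 1)) := hR (t + (r + 1)) (by omega)
  have h2 : G.av (G.run w v (t + (r + 1))) (linv (w (t + r))) :=
    (G.back _ _ (hR (t + r) (by omega))).1
  exact d8a_two G (hdeg (r + 1) (by omega) hr) (hred (t + r) (by omega)) h1 h2 hl

/-- the other walk runs parallel -/
private theorem d8b_par [Fintype X] (G : XG V X) {w w' : ℕ → X × Bool} {v v' : V} {N N' t D : ℕ}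
    (hR : ∀ s < N, G.av (G.run w v s) (w s)) (hred : ∀ s, s + 1 < N → w (s + 1) ≠ linv (w s))
    (hR' : ∀ s < N', G.av (G.run w' v' s) (w' s))
    (hred' : ∀ s, s + 1 < N' → w' (s + 1) ≠ linv (w' s))
    (hD : t + D ≤ N) (hdeg : ∀ s, 1 ≤ s → s < D → G.deg (G.run w v (t + s)) = 2)
    (hend : ∀ s, 1 ≤ s → s < D → G.run w v (t + s) ≠ v' ∧ G.run w v (t + s) ≠ G.run w' v' N')
    (h2D : 2 ≤ D) {s' : ℕ} (hs' : s' < N') (h0 : G.run w' v' s' = G.run w v (t + 1))
    (hl : w' s' = w (t + 1)) :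
    ∃ σ, s' = σ + 1 ∧ G.run w' v' (σ + 1) = G.run w v (t + 1) ∧
      ∀ r < D, σ + r < N' ∧ w' (σ + r) = w (t + r) := by
  obtain ⟨σ, rfl⟩ : ∃ σ, s' = σ + 1 := by
    refine ⟨s' - 1, ?_⟩
    rcases Nat.eq_zero_or_pos s' with h | h
    · subst h
      exact absurd h0.symm (hend 1 le_rfl (by omega)).1
    · omega
  refine ⟨σ, rfl, h0, ?_⟩
  have hF : ∀ r, r + 1 < D → σ + r + 1 < N' ∧ G.run w' v' (σ + r + 1) = G.run w v (t + (r + 1)) ∧
      w' (σ + r + 1) = w (t + r + 1) := by
    intro r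
    induction r with
    | zero => exact fun _ => ⟨hs', h0, hl⟩
    | succ r ih =>
      intro hr
      obtain ⟨a1, a2, a3⟩ := ih (by omega)
      have h3 : G.run w' v' (σ + (r + 1) + 1) = G.run w v (t + (r + 1 + 1)) := by
        change G.nx (G.run w' v' (σ + r + 1)) (w' (σ + r + 1)) =
          G.nx (G.run w v (t + (r + 1))) (w (t + (r + 1)))
        rw [a2, a3]
        rfl
      have h4 : σ + (r + 1) + 1 < N' := by
        rcases Nat.lt_or_ge (σ + (r + 1) + 1) N' with h | h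
        · exact h
        · have h5 : σ + (r + 1) + 1 = N' := by omega
          rw [h5] at h3
          exact absurd h3.symm (hend (r + 1 + 1) (by omega) hr).2
      refine ⟨h4, h3, ?_⟩
      have h6 := hR' _ h4
      rw [h3] at h6
      rcases d8b_letters G hR hred hD hdeg hr h6 with h7 | h7
      · exact h7
      · exfalso
        have h8 := hred' (σ + (r + 1)) h4
        rw [h7] at h8
        apply h8
        have h9 : w' (σ + (r + 1)) = w (t + (r + 1)) := a3
        rw [h9]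
  intro r hr
  cases r with
  | zero =>
    refine ⟨by omega, ?_⟩
    have h3 : G.av (G.run w' v' (σ + 1)) (linv (w' σ)) := (G.back _ _ (hR' σ (by omega))).1
    rw [h0] at h3
    rcases d8b_letters G hR hred hD hdeg (r := 0) (by omega) h3 with h7 | h7
    · exfalso
      apply hred' σ hs'
      rw [hl, h7]
    · exact d8b_linv h7
  | succ r =>
    obtain ⟨a1, a2, a3⟩ := hF r hr
    exact ⟨a1, a3⟩

/-- the other walk runs backwards -/
private theorem d8b_anti [Fintype X] (G : XG V X) {w w' : ℕ → X × Bool} {v v' : V}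
    {N N' t D : ℕ}
    (hR : ∀ s < N, G.av (G.run w v s) (w s)) (hred : ∀ s, s + 1 < N → w (s + 1) ≠ linv (w s))
    (hR' : ∀ s < N', G.av (G.run w' v' s) (w' s))
    (hred' : ∀ s, s + 1 < N' → w' (s + 1) ≠ linv (w' s))
    (hD : t + D ≤ N) (hdeg : ∀ s, 1 ≤ s → s < D → G.deg (G.run w v (t + s)) = 2)
    (hend : ∀ s, 1 ≤ s → s < D → G.run w v (t + s) ≠ v' ∧ G.run w v (t + s) ≠ G.run w' v' N')
    (h2D : 3 ≤ D) {s' : ℕ} (hs' : s' < N') (h0 : G.run w' v' s' = G.run w v (t + 2))
    (hl : w' s' = linv (w (t + 1))) :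
    s' + 1 < N' ∧ ∀ r, r < D - 1 → ∃ σ, σ + r = s' + 1 ∧ w' σ = linv (w (t + r)) := by
  have hB : ∀ r, r + 2 < D → ∃ σ, σ + (r + 1) = s' + 1 ∧ w' σ = linv (w (t + (r + 1))) ∧
      G.run w' v' σ = G.run w v (t + (r + 2)) := by
    intro r
    induction r with
    | zero => exact fun _ => ⟨s', rfl, hl, h0⟩
    | succ r ih =>
      intro hr
      obtain ⟨σ, a1, a2, a3⟩ := ih (by omega)
      obtain ⟨ρ, rfl⟩ : ∃ ρ, σ = ρ + 1 := by
        refine ⟨σ - 1, ?_⟩
        rcases Nat.eq_zero_or_pos σ with h | h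
        · subst h
          exact absurd a3.symm (hend (r + 2) (by omega) (by omega)).1
        · omega
      have hρ : ρ < N' := by omega
      have hρ' : ρ + 1 < N' := by omega
      obtain ⟨b1, b2⟩ := G.back _ _ (hR' ρ hρ)
      change G.av (G.run w' v' (ρ + 1)) (linv (w' ρ)) at b1
      change G.nx (G.run w' v' (ρ + 1)) (linv (w' ρ)) = G.run w' v' ρ at b2
      rw [a3] at b1 b2
      rcases d8b_letters G hR hred hD hdeg (r := r + 1) (by omega) b1 with h7 | h7
      · refine ⟨ρ, by omega, ?_, ?_⟩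
        · rw [← linv_linv (w' ρ), h7]
          rfl
        · rw [← b2, h7]
          rfl
      · exfalso
        apply hred' ρ hρ'
        rw [a2, h7]
  have h3 : G.run w' v' (s' + 1) = G.run w v (t + 1) := by
    change G.nx (G.run w' v' s') (w' s') = G.run w v (t + 1)
    rw [h0, hl]
    exact (G.back _ _ (hR (t + 1) (by omega))).2
  have h4 : s' + 1 < N' := by
    rcases Nat.lt_or_ge (s' + 1) N' with h | h
    · exact h
    · have h5 : s' + 1 = N' := by omega
      rw [h5] at h3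
      exact absurd h3.symm (hend 1 le_rfl (by omega)).2
  refine ⟨h4, ?_⟩
  intro r hr
  cases r with
  | zero =>
    refine ⟨s' + 1, rfl, ?_⟩
    have h6 := hR' _ h4
    rw [h3] at h6
    rcases d8b_letters G hR hred hD hdeg (r := 0) (by omega) h6 with h7 | h7
    · exfalso
      apply hred' s' h4
      rw [h7, hl, linv_linv]
    · exact h7
  | succ r =>
    obtain ⟨σ, a1, a2, -⟩ := hB r (by omega)
    exact ⟨σ, a1, a2⟩

/-- the starting point is determined -/
private theorem d8b_inj (G : XG V X) {w : ℕ → X × Bool} {v v' : V} {r : ℕ}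
    (hR : ∀ s < r, G.av (G.run w v s) (w s)) (hR' : ∀ s < r, G.av (G.run w v' s) (w s))
    (h : G.run w v r = G.run w v' r) : v = v' := by
  induction r with
  | zero => exact h
  | succ r ih =>
    apply ih (fun s hs => hR s (by omega)) (fun s hs => hR' s (by omega))
    have h1 : G.nx (G.run w v (r + 1)) (linv (w r)) = G.run w v r := (G.back _ _ (hR r (by omega))).2
    have h2 : G.nx (G.run w v' (r + 1)) (linv (w r)) = G.run w v' r :=
      (G.back _ _ (hR' r (by omega))).2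
    rw [← h1, ← h2, h]

private theorem d8b_edg {S : Type*} {p q P Q : V} {m m' : S × Bool}
    (h : edg p m' q = edg P m Q) : (m' = m ∧ p = P ∧ q = Q) ∨ (m' = linv m ∧ p = Q ∧ q = P) := by
  obtain ⟨a, b⟩ := m
  obtain ⟨a', b'⟩ := m'
  cases b <;> cases b'
  · have h1 : (q, a', p) = (Q, a, P) := h
    obtain ⟨h2, h3⟩ := Prod.mk.inj h1
    obtain ⟨h4, h5⟩ := Prod.mk.inj h3
    subst h4
    exact Or.inl ⟨rfl, h5, h2⟩
  · have h1 : (p, a', q) = (Q, a, P) := h
    obtain ⟨h2, h3⟩ := Prod.mk.inj h1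
    obtain ⟨h4, h5⟩ := Prod.mk.inj h3
    subst h4
    exact Or.inr ⟨rfl, h2, h5⟩
  · have h1 : (q, a', p) = (P, a, Q) := h
    obtain ⟨h2, h3⟩ := Prod.mk.inj h1
    obtain ⟨h4, h5⟩ := Prod.mk.inj h3
    subst h4
    exact Or.inr ⟨rfl, h5, h2⟩
  · have h1 : (p, a', q) = (P, a, Q) := h
    obtain ⟨h2, h3⟩ := Prod.mk.inj h1
    obtain ⟨h4, h5⟩ := Prod.mk.inj h3
    subst h4
    exact Or.inl ⟨rfl, h2, h5⟩

theorem deep_b [Fintype X] {K L : ℕ} (hW : Gen W i j K L) (hL : 1 ≤ L) (hK : 3 ≤ K)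
    (h : NoFree Γ (relR W i j)) (d : X × Bool) {e : E} {v : V}
    (hp : Γ.Walk v (relA W e) v) {t : ℕ} (ht : t + K + L ≤ (W e).length)
    (h2 : ∀ s, 1 ≤ s → s < K + L → (xg Γ).deg ((xg Γ).run (lw (W e) d) v (t + s)) = 2)
    (hno : ∀ s, 1 ≤ s → s < K + L → ∀ e' y,
      ((xg Γ).run (lw (W e) d) v (t + s), Sum.inr e', y) ∉ Γ.F ∧
        (y, Sum.inr e', (xg Γ).run (lw (W e) d) v (t + s)) ∉ Γ.F) : False := by
  obtain ⟨hR, -⟩ := (polyA_iff e d v).1 hp
  have hget : ∀ (e : E) (s : ℕ), s < (W e).length → (W e)[s]? = some (lw (W e) d s) := by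
    intro e s hs
    unfold lw
    rw [List.getD_eq_getElem?_getD, List.getElem?_eq_getElem hs]
    rfl
  have hred : ∀ (e : E) (s : ℕ), s + 1 < (W e).length → lw (W e) d (s + 1) ≠ linv (lw (W e) d s) :=
    fun e s hs => hW.red e s _ _ (hget e _ (by omega)) (hget e _ hs)
  -- the second pass
  have hpass : ∃ (e' : E) (v' : V) (s' : ℕ), ¬ (e' = e ∧ v' = v ∧ s' = t + 1) ∧
      Γ.Walk v' (relA W e') v' ∧ s' < (W e').length ∧
      edg ((xg Γ).run (lw (W e') d) v' s') (lw (W e') d s') ((xg Γ).run (lw (W e') d) v' (s' + 1)) =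
        edg ((xg Γ).run (lw (W e) d) v (t + 1)) (lw (W e) d (t + 1))
          ((xg Γ).run (lw (W e) d) v (t + 2)) := by
    have hst : Γ.Step ((xg Γ).run (lw (W e) d) v (t + 1))
        (Sum.inl (lw (W e) d (t + 1)).1, (lw (W e) d (t + 1)).2)
        ((xg Γ).run (lw (W e) d) v (t + 2)) := xg_step (hR (t + 1) (by omega))
    have hsel : ∀ {f : V × X × V}, (∃ p p' : E × V × ℕ, p ≠ p' ∧ ∀ r ∈ [p, p'],
        Γ.Walk r.2.1 (relA W r.1) r.2.1 ∧ r.2.2 < (W r.1).length ∧
        edg ((xg Γ).run (lw (W r.1) d) r.2.1 r.2.2) (lw (W r.1) d r.2.2)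
        ((xg Γ).run (lw (W r.1) d) r.2.1 (r.2.2 + 1)) = f) →
        ∃ (e' : E) (v' : V) (s' : ℕ), ¬ (e' = e ∧ v' = v ∧ s' = t + 1) ∧
          Γ.Walk v' (relA W e') v' ∧ s' < (W e').length ∧
          edg ((xg Γ).run (lw (W e') d) v' s') (lw (W e') d s')
            ((xg Γ).run (lw (W e') d) v' (s' + 1)) = f := by
      rintro f ⟨p, p', hne, hall⟩
      by_cases hc : p = (e, v, t + 1)
      · obtain ⟨c1, c2, c3⟩ := hall p' (by simp)
        refine ⟨p'.1, p'.2.1, p'.2.2, ?_, c1, c2, c3⟩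
        rintro ⟨g1, g2, g3⟩
        exact hne (hc.trans (Prod.ext g1.symm (Prod.ext g2.symm g3.symm)))
      · obtain ⟨c1, c2, c3⟩ := hall p (by simp)
        refine ⟨p.1, p.2.1, p.2.2, ?_, c1, c2, c3⟩
        rintro ⟨g1, g2, g3⟩
        exact hc (Prod.ext g1 (Prod.ext g2 g3))
    apply hsel
    generalize lw (W e) d (t + 1) = m at hst
    obtain ⟨x, b⟩ := m
    cases b
    · exact pass_x h d ((LG.step_false ..).1 hst) (hno 2 (by omega) (by omega))
    · exact pass_x h d ((LG.step_true ..).1 hst) (hno 1 le_rfl (by omega))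
  obtain ⟨e', v', s', hne, hw', hs', hedg⟩ := hpass
  obtain ⟨hR', hF'⟩ := (polyA_iff e' d v').1 hw'
  have hend : ∀ s, 1 ≤ s → s < K + L → (xg Γ).run (lw (W e) d) v (t + s) ≠ v' ∧
      (xg Γ).run (lw (W e) d) v (t + s) ≠ (xg Γ).run (lw (W e') d) v' (W e').length := by
    intro s h1 h3
    constructor
    · intro h4
      have h5 := (hno s h1 h3 e' ((xg Γ).run (lw (W e') d) v' (W e').length)).1
      rw [h4] at h5
      exact h5 hF'
    · intro h4
      have h5 := (hno s h1 h3 e' v').2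
      rw [h4] at h5
      exact h5 hF'
  rcases d8b_edg hedg with ⟨g1, g2, g3⟩ | ⟨g1, g2, g3⟩
  · obtain ⟨σ, k1, k2, k3⟩ := d8b_par (xg Γ) (D := K + L) hR (hred e) hR' (hred e') (by omega)
      h2 hend (by omega) hs' g2 g1
    have h6 := hW.occ e e' t σ (by omega) (by
      have := (k3 (L - 1) (by omega)).1
      omega) (by
      intro r hr
      have h7 := k3 r (by omega)
      rw [hget _ _ (by omega), hget _ _ h7.1, h7.2])
    obtain ⟨h7, h8⟩ := h6
    subst h7
    subst h8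
    apply hne
    refine ⟨rfl, ?_, k1⟩
    refine (d8b_inj (xg Γ) (r := t + 1) (fun s hs => hR s (by omega))
      (fun s hs => hR' s (by omega)) ?_).symm
    rw [← k2]
  · obtain ⟨k1, k2⟩ := d8b_anti (xg Γ) (D := K + L) hR (hred e) hR' (hred e') (by omega)
      h2 hend (by omega) hs' g2 g1
    obtain ⟨ρ, hρ, -⟩ := k2 (L - 1) (by omega)
    refine hW.inv e e' t ρ (by omega) (by omega) ?_
    intro r hr
    obtain ⟨σ, h7, h8⟩ := k2 r (by omega)
    have h9 : ρ + L - 1 - r = σ := by omega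
    rw [h9, hget _ _ (by omega), hget _ _ (by omega), h8]
    change some (lw (W e) d (t + r)) = some (linv (linv (lw (W e) d (t + r))))
    rw [linv_linv]

end Pool.Agent.RibLI
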