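import Pool.Agent.Lib.RibLI.Defs
import Pool.Agent.Lib.RibLI.B1
import Pool.Agent.Lib.RibLI.C8
import Pool.Agent.Lib.RibLI.D1
import Pool.Agent.Lib.RibLI.D2
import Pool.Agent.Lib.RibLI.D3
import Pool.Agent.Lib.RibLI.D5
import Pool.Agent.Lib.RibLI.D7
import Pool.Agent.Lib.RibLI.D8a
import Pool.Agent.Lib.RibLI.D8b

/-!
# Generic ribbon disc groups : module D9

(problem MP_cf50d6_gt; paper MP_cf50d6_gt_rib50.md)
-/

set_option autoImplicit false

open scoped Classical

namespace Pool.Agent.RibLI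

open Pool.Agent.LIA

universe u

variable {V X E : Type*} {Γ : LG V (X ⊕ E)} {W : E → List (X × Bool)} {i j : E → X}

/-- the starting points of the polygons of the first kind -/
private noncomputable def d9_A [Fintype V] (Γ : LG V (X ⊕ E)) (W : E → List (X × Bool)) (e : E) :
    Finset V :=
  Finset.univ.filter fun v => Γ.Walk v (relA W e) v

private theorem d9_get (L : List (X × Bool)) (d : X × Bool) {s : ℕ} (hs : s < L.length) :
    L[s]? = some (lw L d s) := by
  unfold lw
  rw [List.getD_eq_getElem?_getD, List.getElem?_eq_getElem hs]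
  rfl

private theorem d9_supp [Fintype V] {e : E} {v : V} (d : X × Bool)
    (hv : Γ.Walk v (relA W e) v) {s : ℕ} (hs : s ≤ (W e).length) :
    (xg Γ).run (lw (W e) d) v s ∈ supp Γ := by
  obtain ⟨h1, h2⟩ := (polyA_iff e d v).1 hv
  unfold supp
  rw [Finset.mem_filter]
  refine ⟨Finset.mem_univ _, ?_⟩
  rcases Nat.lt_or_ge s (W e).length with h3 | h3
  · have h4 := xg_step (h1 s h3)
    generalize hl : lw (W e) d s = l at h4
    obtain ⟨x, b⟩ := l
    cases b
    · exact ⟨_, LG.step_false.1 h4, Or.inr rfl⟩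
    · exact ⟨_, LG.step_true.1 h4, Or.inl rfl⟩
  · have h4 : s = (W e).length := le_antisymm hs h3
    subst h4
    exact ⟨_, h2, Or.inr rfl⟩

private theorem d9_ctx [Fintype V] [Fintype X] {K L : ℕ} (hW : Gen W i j K L) (hK : 1 ≤ K)
    (h : NoFree Γ (relR W i j)) (d : X × Bool) (e : E) :
    ∃ τ, Ctx (xg Γ) (lw (W e) d) (W e).length (d9_A Γ W e) τ K L := by
  refine ⟨fun u => if h : u.length = K ∧ Rdc u then (hW.win e u h.1 h.2).choose else 0,
    ⟨?_, ?_, ?_, ?_⟩⟩
  · intro s hs
    exact hW.red e s _ _ (d9_get _ d (by omega)) (d9_get _ d hs)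
  · intro v hv
    exact ((polyA_iff e d v).1 (Finset.mem_filter.1 hv).2).1
  · intro u hu
    have hu' := (mem_RW K u).1 hu
    obtain ⟨h1, h2⟩ := (hW.win e u hu'.1 hu'.2).choose_spec
    have e1 : (if h : u.length = K ∧ Rdc u then (hW.win e u h.1 h.2).choose else 0) =
        (hW.win e u hu'.1 hu'.2).choose := dif_pos hu'
    refine ⟨?_, ?_⟩
    · rw [e1]
      exact h1
    · intro r hr
      rw [e1, h2 r hr]
      exact d9_get _ d (by omega)
  · intro v hv s hs
    exact deg_two hW hK h (d9_supp d (Finset.mem_filter.1 hv).2 hs)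

private theorem d9_polys [Fintype V] [Fintype E] :
    (polys Γ (relR W i j)).card = ∑ e, (d9_A Γ W e).card +
      (Finset.univ.filter fun p : V × E => Γ.Walk p.1 (relB i j p.2) p.1).card := by
  have h1 : (Finset.univ.filter fun p : V × E => Γ.Walk p.1 (relB i j p.2) p.1).card =
      ∑ e, (Finset.univ.filter fun v : V => Γ.Walk v (relB i j e) v).card := by
    rw [Finset.card_filter, ← Finset.univ_product_univ, Finset.sum_product_right]
    refine Finset.sum_congr rfl fun e _ => ?_
    rw [← Finset.card_filter]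
  have h2 : (polys Γ (relR W i j)).card =
      ∑ z, (Finset.univ.filter fun v : V => Γ.Walk v (relR W i j z) v).card := by
    unfold polys
    rw [Finset.card_filter, ← Finset.univ_product_univ, Finset.sum_product_right]
    refine Finset.sum_congr rfl fun e _ => ?_
    rw [← Finset.card_filter]
  rw [h1, h2, Fintype.sum_sum_type]
  rfl

private theorem d9_F [Fintype X] [Fintype E] : Γ.F.card = (Γ.F.filter fun f => ∃ x, f.2.1 = Sum.inl x).card +
    (Γ.F.filter fun f => ∃ e, f.2.1 = Sum.inr e).card := by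
  rw [← Finset.card_filter_add_card_filter_not (s := Γ.F) fun f => ∃ x, f.2.1 = Sum.inl x]
  congr 2
  refine Finset.filter_congr fun f _ => ?_
  obtain ⟨a, l, b⟩ := f
  cases l with
  | inl x =>
    constructor
    · intro h
      exact absurd ⟨x, rfl⟩ h
    · rintro ⟨e, he⟩
      cases he
  | inr e =>
    constructor
    · intro _
      exact ⟨e, rfl⟩
    · rintro _ ⟨x, hx⟩
      cases hx

private theorem d9_sum [Fintype V] [Fintype X] {K L : ℕ} (hW : Gen W i j K L) (hK : 1 ≤ K)
    (h : NoFree Γ (relR W i j)) :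
    ∑ x, ((xg Γ).deg x - 2) + 2 * (supp Γ).card = ∑ x, (xg Γ).deg x := by
  have h1 : 2 * (supp Γ).card = ∑ x : V, if x ∈ supp Γ then 2 else 0 := by
    rw [← Finset.sum_filter, Finset.filter_mem_eq_inter, Finset.univ_inter, Finset.sum_const,
      smul_eq_mul, mul_comm]
  rw [h1, ← Finset.sum_add_distrib]
  refine Finset.sum_congr rfl fun x _ => ?_
  by_cases hx : x ∈ supp Γ
  · rw [if_pos hx]
    have := deg_two hW hK h hx
    omega
  · rw [if_neg hx]
    have h2 : (xg Γ).deg x = 0 := by
      unfold XG.deg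
      rw [Finset.card_eq_zero, Finset.filter_eq_empty_iff]
      rintro ⟨y, b⟩ _ hy
      apply hx
      have h4 := xg_step hy
      unfold supp
      rw [Finset.mem_filter]
      refine ⟨Finset.mem_univ _, ?_⟩
      cases b
      · exact ⟨_, LG.step_false.1 h4, Or.inr rfl⟩
      · exact ⟨_, LG.step_true.1 h4, Or.inl rfl⟩
    rw [h2]

theorem nofree_count [Fintype V] [Fintype X] [Fintype E] {K L : ℕ} (hW : Gen W i j K L)
    (hX : 2 ≤ Fintype.card X) (hEX : Fintype.card E + 1 ≤ Fintype.card X) (hL : 1 ≤ L)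
    (hK : 3 ≤ K) (h3 : 3 * L ≤ (2 * Fintype.card X - 1) ^ (K - 2))
    (h4 : 4 * (K + L) ≤ (2 * Fintype.card X - 1) ^ (K - 1)) (hne : Γ.F.Nonempty)
    (h : NoFree Γ (relR W i j)) : (polys Γ (relR W i j)).card + (supp Γ).card ≤ Γ.F.card := by
  have hX0 : 0 < Fintype.card X := by omega
  obtain ⟨x₀⟩ := Fintype.card_pos_iff.1 hX0
  let d : X × Bool := (x₀, true)
  choose τ hτ using fun e => d9_ctx (i := i) (j := j) hW (by omega : 1 ≤ K) h d e
  have hall := count_all (Γ := xg Γ) (K := K) (L := L) hX hEX hK h3 h4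
    (fun e => lw (W e) d) (fun e => (W e).length) (d9_A Γ W) τ hτ
    (M := {f // f ∈ one Γ i j} × Bool) (fun μ => if μ.2 then μ.1.1.1 else μ.1.1.2.2) (by
      intro e v hv t ht hdeg
      by_contra hcon
      have hv' : Γ.Walk v (relA W e) v := (Finset.mem_filter.1 hv).2
      have hno : ∀ s, 1 ≤ s → s < K + L → ∀ f ∈ one Γ i j,
          f.1 ≠ (xg Γ).run (lw (W e) d) v (t + s) ∧
            f.2.2 ≠ (xg Γ).run (lw (W e) d) v (t + s) := by
        intro s hs1 hs2 f hf
        constructor
        · intro hc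
          exact hcon ⟨s, (⟨f, hf⟩, true), hs1, hs2, hc⟩
        · intro hc
          exact hcon ⟨s, (⟨f, hf⟩, false), hs1, hs2, hc⟩
      exact deep_b hW hL hK h d hv' ht hdeg (deep_a hW hL hK h d hv' ht hdeg hno))
  have hM : Fintype.card ({f // f ∈ one Γ i j} × Bool) = 2 * (one Γ i j).card := by
    rw [Fintype.card_prod, Fintype.card_bool, Fintype.card_coe, mul_comm]
  rw [hM] at hall
  have h5 := d9_sum hW (by omega : 1 ≤ K) h
  have h6 := card_X (Γ := Γ)
  have h7 := card_B h
  have h8 := d9_F (Γ := Γ)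
  have h9 := d9_polys (Γ := Γ) (W := W) (i := i) (j := j)
  omega

end Pool.Agent.RibLI
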