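import Pool.Agent.Lib.RibLI.Defs

/-!
# A1 : an acyclic graph has enough polygons, with the vertices on the edges

(helper72, problem MP_cf50d6_gt; the dimension count is that of `Lib/TwLI/TCard.lean`)
-/

set_option autoImplicit false

open scoped Classical

namespace Pool.Agent.RibLI

open Pool.Agent.LIA

universe u

/-- dimension count -/
private theorem A1_dim {V : Type*} [Fintype V] {E P : Type*} [Fintype E] [Fintype P]
    (R : (E → ℚ) →ₗ[ℚ] (P → ℚ)) (s t : E → V) (o : V)
    (h : ∀ c, R c = 0 → ∃ f : V → ℚ, ∀ e, c e = f (t e) - f (s e)) :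
    Fintype.card E + 1 ≤ Fintype.card V + Fintype.card P := by
  let δ : (V → ℚ) →ₗ[ℚ] (E → ℚ) :=
    { toFun := fun f e => f (t e) - f (s e)
      map_add' := by
        intro f g
        ext e
        simp only [Pi.add_apply]
        ring
      map_smul' := by
        intro a f
        ext e
        simp only [Pi.smul_apply, smul_eq_mul, RingHom.id_apply]
        ring }
  have h1 := LinearMap.finrank_range_add_finrank_ker R
  have h2 := LinearMap.finrank_range_add_finrank_ker δ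
  rw [Module.finrank_pi] at h1 h2
  have h3 : Module.finrank ℚ (LinearMap.range R) ≤ Fintype.card P := by
    have := Submodule.finrank_le (LinearMap.range R)
    rwa [Module.finrank_pi] at this
  have h4 : Module.finrank ℚ (LinearMap.ker R) ≤ Module.finrank ℚ (LinearMap.range δ) := by
    apply Submodule.finrank_mono
    intro c hc
    obtain ⟨f, hf⟩ := h c (LinearMap.mem_ker.1 hc)
    refine ⟨f, ?_⟩
    ext e
    exact (hf e).symm
  have h5 : 0 < Module.finrank ℚ (LinearMap.ker δ) := by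
    rw [Module.finrank_pos_iff]
    refine ⟨⟨⟨fun _ => 1, ?_⟩, 0, ?_⟩⟩
    · rw [LinearMap.mem_ker]
      ext e
      simp [δ]
    · intro h0
      have h6 := congrArg (fun z : LinearMap.ker δ => z.1 o) h0
      simp at h6
  omega

/-- extension by zero -/
private noncomputable def A1_ext {V S : Type*} (Γ : LG V S) (c : ↥Γ.F → ℚ) (e : V × S × V) :
    ℚ := if h : e ∈ Γ.F then c ⟨e, h⟩ else 0

/-- the sum along a word as a functional -/
private noncomputable def A1_fun {V S Z : Type*} (Γ : LG V S) (rel : Z → List (S × Bool))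
    (p : V × Z) : (↥Γ.F → ℚ) →ₗ[ℚ] ℚ where
  toFun c := Γ.trSum (A1_ext Γ c) p.1 (rel p.2)
  map_add' := by
    intro a b
    have h : A1_ext Γ (a + b) = fun e => A1_ext Γ a e + A1_ext Γ b e := by
      funext e
      by_cases he : e ∈ Γ.F
      · simp [A1_ext, he]
      · simp [A1_ext, he]
    rw [h, LG.trSum_add]
  map_smul' := by
    intro r a
    have h : A1_ext Γ (r • a) = fun e => r * A1_ext Γ a e := by
      funext e
      by_cases he : e ∈ Γ.F
      · simp [A1_ext, he]
      · simp [A1_ext, he]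
    rw [h, LG.trSum_smul]
    rfl

theorem a1_mem_supp {V S : Type*} [Fintype V] {Γ : LG V S} {v : V} :
    v ∈ supp Γ ↔ ∃ e ∈ Γ.F, e.1 = v ∨ e.2.2 = v := by
  simp [supp]

theorem a1_mem_polys {V S Z : Type*} [Fintype V] [Fintype Z] {Γ : LG V S}
    {rel : Z → List (S × Bool)} {p : V × Z} :
    p ∈ polys Γ rel ↔ Γ.Walk p.1 (rel p.2) p.1 := by
  simp [polys]

-- A1
theorem acy_card_supp {V S Z : Type*} [Fintype V] [Fintype Z] {Γ : LG V S}
    {rel : Z → List (S × Bool)} (hA : Γ.Acy rel) (hne : Γ.F.Nonempty) :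
    Γ.F.card + 1 ≤ (supp Γ).card + (polys Γ rel).card := by
  have hs1 : ∀ e : ↥Γ.F, e.1.1 ∈ supp Γ := fun e => a1_mem_supp.2 ⟨e.1, e.2, Or.inl rfl⟩
  have hs2 : ∀ e : ↥Γ.F, e.1.2.2 ∈ supp Γ := fun e => a1_mem_supp.2 ⟨e.1, e.2, Or.inr rfl⟩
  obtain ⟨e0, he0⟩ := hne
  have hcount := A1_dim (V := ↥(supp Γ)) (E := ↥Γ.F) (P := ↥(polys Γ rel))
    (LinearMap.pi fun p => A1_fun Γ rel p.1) (fun e => ⟨e.1.1, hs1 e⟩)
    (fun e => ⟨e.1.2.2, hs2 e⟩) ⟨e0.1, hs1 ⟨e0, he0⟩⟩ ?_
  · rw [Fintype.card_coe, Fintype.card_coe, Fintype.card_coe] at hcount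
    exact hcount
  · intro c hc
    obtain ⟨h, hh⟩ := hA (A1_ext Γ c) (fun v z hvz =>
      congrFun hc ⟨(v, z), a1_mem_polys.2 hvz⟩)
    refine ⟨fun v => h v.1, ?_⟩
    rintro ⟨⟨u, s, v⟩, he⟩
    have h1 := hh u s v he
    rw [A1_ext, dif_pos he] at h1
    exact h1

end Pool.Agent.RibLI
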