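import Pool.Agent.Lib.RibLI.Defs

/-!
# A2 : removing an edge which is passed at most once keeps the graph acyclic

(helper72, problem MP_cf50d6_gt)
-/

set_option autoImplicit false

open scoped Classical

namespace Pool.Agent.RibLI

open Pool.Agent.LIA

universe u

section del

variable {V S Z : Type*} {Γ : LG V S} {f : V × S × V}

theorem a2_mem_del {e : V × S × V} : e ∈ (del Γ f).F ↔ e ≠ f ∧ e ∈ Γ.F := by
  simp [del]

theorem a2_del_sub : (del Γ f).F ⊆ Γ.F := fun _ h => (a2_mem_del.1 h).2

theorem a2_step_del {x y : V} {l : S × Bool} :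
    (del Γ f).Step x l y ↔ Γ.Step x l y ∧ edg x l y ≠ f := by
  obtain ⟨s, b⟩ := l
  cases b
  · simp only [LG.step_false, a2_mem_del, edg, Bool.false_eq_true, if_false]
    exact and_comm
  · simp only [LG.step_true, a2_mem_del, edg, if_true]
    exact and_comm

/-- a walk avoids the edge `f` or there is a first step along it -/
theorem a2_walk_split {u v : V} {L : List (S × Bool)} (h : Γ.Walk u L v) :
    (del Γ f).Walk u L v ∨ ∃ A l B x y, L = A ++ l :: B ∧ (del Γ f).Walk u A x ∧
      Γ.Step x l y ∧ edg x l y = f ∧ Γ.Walk y B v := by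
  induction L generalizing u with
  | nil => exact Or.inl h
  | cons l L ih =>
    obtain ⟨a, ha, ha'⟩ := h
    by_cases he : edg u l a = f
    · exact Or.inr ⟨[], l, L, u, a, rfl, rfl, ha, he, ha'⟩
    · have h1 : (del Γ f).Step u l a := a2_step_del.2 ⟨ha, he⟩
      rcases ih ha' with h2 | ⟨A, m, B, x, y, h2, h3, h4, h5, h6⟩
      · exact Or.inl ⟨a, h1, h2⟩
      · exact Or.inr ⟨l :: A, m, B, x, y, by rw [h2]; rfl, ⟨a, h1, h3⟩, h4, h5, h6⟩

/-- the sum along a walk which avoids `f` -/
theorem a2_trSum_del (c : V × S × V → ℚ) {u v : V} {L : List (S × Bool)}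
    (h : (del Γ f).Walk u L v) : (del Γ f).trSum c u L = Γ.trSum c u L := by
  induction L generalizing u with
  | nil => rw [LG.trSum_nil, LG.trSum_nil]
  | cons l L ih =>
    obtain ⟨a, ha, ha'⟩ := h
    rw [LG.trSum_cons _ _ _ ha, LG.trSum_cons _ _ _ (a2_step_del.1 ha).1, ih ha']

/-- the sum along a walk which avoids `f` does not depend on the value at `f` -/
theorem a2_trSum_upd (c : V × S × V → ℚ) (t : ℚ) {u v : V} {L : List (S × Bool)}
    (h : (del Γ f).Walk u L v) :
    Γ.trSum (fun e => if e = f then t else c e) u L = Γ.trSum c u L := by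
  induction L generalizing u with
  | nil => rw [LG.trSum_nil, LG.trSum_nil]
  | cons l L ih =>
    obtain ⟨a, ha, ha'⟩ := h
    obtain ⟨h1, h2⟩ := a2_step_del.1 ha
    rw [LG.trSum_cons _ _ _ h1, LG.trSum_cons _ _ _ h1, ih ha']
    congr 1
    obtain ⟨s, b⟩ := l
    cases b
    · simp only [edg, Bool.false_eq_true, if_false] at h2 ⊢
      rw [if_neg h2]
    · simp only [edg, if_true] at h2 ⊢
      rw [if_neg h2]

theorem a2_trSum_append (Γ : LG V S) (c : V × S × V → ℚ) {u v : V} {L M : List (S × Bool)}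
    (h : Γ.Walk u L v) : Γ.trSum c u (L ++ M) = Γ.trSum c u L + Γ.trSum c v M := by
  induction L generalizing u with
  | nil =>
    rw [LG.walk_nil] at h
    rw [LG.trSum_nil, List.nil_append, h, zero_add]
  | cons l L ih =>
    obtain ⟨a, ha, ha'⟩ := h
    rw [List.cons_append, LG.trSum_cons _ _ _ ha, LG.trSum_cons _ _ _ ha, ih ha', add_assoc]

theorem a2_del_walk {u v : V} {L : List (S × Bool)} (h : (del Γ f).Walk u L v) : Γ.Walk u L v :=
  h.mono a2_del_sub

variable {rel : Z → List (S × Bool)}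

/-- the decomposition of a polygon at a pass -/
theorem a2_pass_of {v : V} {z : Z} {A B : List (S × Bool)} {l : S × Bool} {x y : V}
    (h : rel z = A ++ l :: B) (h1 : Γ.Walk v A x) (h2 : Γ.Step x l y) (h3 : edg x l y = f)
    (h4 : Γ.Walk y B v) : Pass Γ rel f (v, z, A.length) := by
  refine ⟨?_, x, y, l, ?_, ?_, h2, h3⟩
  · change Γ.Walk v (rel z) v
    rw [h]
    exact LG.walk_append.2 ⟨x, h1, y, h2, h4⟩
  · change (rel z)[A.length]? = some l
    rw [h]
    simp
  · change Γ.Walk v ((rel z).take A.length) x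
    rw [h]
    simpa using h1

/-- no pass or exactly one pass, which cuts its polygon into two walks which avoid `f` -/
theorem a2_pass_cases (h1 : ∀ p p', Pass Γ rel f p → Pass Γ rel f p' → p = p') :
    (∀ v z, Γ.Walk v (rel z) v → (del Γ f).Walk v (rel z) v) ∨
      ∃ v₀ z₀ A l B x y, rel z₀ = A ++ l :: B ∧ (del Γ f).Walk v₀ A x ∧ Γ.Step x l y ∧
        edg x l y = f ∧ (del Γ f).Walk y B v₀ ∧
        ∀ v z, Γ.Walk v (rel z) v → (v, z) ≠ (v₀, z₀) → (del Γ f).Walk v (rel z) v := by
  by_cases hp : ∃ p, Pass Γ rel f p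
  · right
    obtain ⟨⟨v₀, z₀, s₀⟩, hp⟩ := hp
    have key : ∀ v z, Γ.Walk v (rel z) v → ¬ (del Γ f).Walk v (rel z) v → v = v₀ ∧ z = z₀ := by
      intro v z hv hn
      rcases a2_walk_split (f := f) hv with h | ⟨A, l, B, x, y, h2, h3, h4, h5, h6⟩
      · exact absurd h hn
      · have h7 := h1 _ _ (a2_pass_of h2 (a2_del_walk h3) h4 h5 h6) hp
        have h8 := congrArg Prod.fst h7
        have h9 := congrArg (fun q => q.2.1) h7
        exact ⟨h8, h9⟩
    have hw : Γ.Walk v₀ (rel z₀) v₀ := hp.1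
    rcases a2_walk_split (f := f) hw with h | ⟨A, l, B, x, y, h2, h3, h4, h5, h6⟩
    · -- the pass is along an edge of the walk
      exfalso
      obtain ⟨-, x, y, l, hx1, hx2, hx3, hx4⟩ := hp
      simp only at hx1 hx2
      have h7 : rel z₀ = (rel z₀).take s₀ ++ l :: (rel z₀).drop (s₀ + 1) := by
        obtain ⟨hlt, hx5⟩ := List.getElem?_eq_some_iff.1 hx1
        rw [← hx5, ← List.drop_eq_getElem_cons hlt, List.take_append_drop]
      rw [h7, LG.walk_append] at h
      obtain ⟨x', h8, y', h9, h10⟩ := h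
      obtain rfl := LG.walk_det hx2 (a2_del_walk h8)
      obtain ⟨h11, h12⟩ := a2_step_del.1 h9
      obtain rfl := LG.step_det hx3 h11
      exact h12 hx4
    · refine ⟨v₀, z₀, A, l, B, x, y, h2, h3, h4, h5, ?_, ?_⟩
      · rcases a2_walk_split (f := f) h6 with h | ⟨A', l', B', x', y', h2', h3', h4', h5', h6'⟩
        · exact h
        · exfalso
          have h7 : rel z₀ = (A ++ l :: A') ++ l' :: B' := by
            rw [h2, h2']
            simp
          have h8 := a2_pass_of h7 (LG.walk_append.2 ⟨x, a2_del_walk h3, y, h4, a2_del_walk h3'⟩) h4' h5' h6'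
          have h9 := h1 _ _ (a2_pass_of h2 (a2_del_walk h3) h4 h5 h6) h8
          have h10 := congrArg (fun q => q.2.2) h9
          simp at h10
      · intro v z hv hne
        by_contra hn
        obtain ⟨rfl, rfl⟩ := key v z hv hn
        exact hne rfl
  · left
    intro v z hv
    rcases a2_walk_split (f := f) hv with h | ⟨A, l, B, x, y, h2, h3, h4, h5, h6⟩
    · exact h
    · exact absurd ⟨_, a2_pass_of h2 (a2_del_walk h3) h4 h5 h6⟩ hp

end del

-- A2
theorem acy_del {V S Z : Type*} {Γ : LG V S} {rel : Z → List (S × Bool)} {f : V × S × V}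
    (hA : Γ.Acy rel) (hf : f ∈ Γ.F)
    (h1 : ∀ p p', Pass Γ rel f p → Pass Γ rel f p' → p = p') : (del Γ f).Acy rel := by
  intro c hc
  have hc' : ∀ v z, (del Γ f).Walk v (rel z) v → Γ.trSum c v (rel z) = 0 := by
    intro v z h
    rw [← a2_trSum_del c h]
    exact hc v z h
  rcases a2_pass_cases h1 with h | ⟨v₀, z₀, A, l, B, x, y, h2, h3, h4, h5, h6, h7⟩
  · obtain ⟨k, hk⟩ := hA c fun v z hv => hc' v z (h v z hv)
    exact ⟨k, fun u s v huv => hk u s v (a2_del_sub huv)⟩
  · -- the value at `f` which makes the sum along the polygon zero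
    obtain ⟨t, ht⟩ : ∃ t : ℚ, Γ.trSum c v₀ A + ((if l.2 then t else - t) + Γ.trSum c y B) = 0 := by
      obtain ⟨s, b⟩ := l
      cases b
      · refine ⟨Γ.trSum c v₀ A + Γ.trSum c y B, ?_⟩
        simp only [Bool.false_eq_true, if_false]
        ring
      · refine ⟨- (Γ.trSum c v₀ A + Γ.trSum c y B), ?_⟩
        simp only [if_true]
        ring
    obtain ⟨k, hk⟩ := hA (fun e => if e = f then t else c e) (by
      intro v z hv
      by_cases hvz : (v, z) = (v₀, z₀)
      · obtain ⟨rfl, rfl⟩ := Prod.mk.inj hvz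
        rw [h2, a2_trSum_append Γ _ (a2_del_walk h3), LG.trSum_cons _ _ _ h4, a2_trSum_upd c t h3,
          a2_trSum_upd c t h6, ← ht]
        congr 2
        obtain ⟨s, b⟩ := l
        cases b
        · simp only [edg, Bool.false_eq_true, if_false] at h5 ⊢
          rw [if_pos h5]
        · simp only [edg, if_true] at h5 ⊢
          rw [if_pos h5]
      · have h8 := h7 v z hv hvz
        rw [a2_trSum_upd c t h8]
        exact hc' v z h8)
    refine ⟨k, fun u s v huv => ?_⟩
    have h8 := hk u s v (a2_del_sub huv)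
    rw [if_neg (a2_mem_del.1 huv).1] at h8
    exact h8

end Pool.Agent.RibLI
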