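import Pool.Agent.Lib.TwLI.TEx
import Pool.Agent.Lib.TwLI.TCard

/-!
# Generic ribbon disc groups : definitions

(helper50, problem MP_cf50d6_gt; paper in the team store: MP_cf50d6_gt_rib50.md)

`LG V S`, `Walk`, `Step`, `Acy`, `LocallyIndicable`, `linv` come from `Lib/MP_cf50d6_gt` and `Lib/TwLI`.
Letters of `X` are pairs `(x, true)` (the generator) and `(x, false)` (its inverse).
-/

set_option autoImplicit false

open scoped Classical

namespace Pool.Agent.RibLI

open Pool.Agent.LIA

universe u

/-! ## passes of polygons -/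

section poly

variable {V S Z : Type*}

/-- the edge of the step `l` from `x` to `y` -/
def edg (x : V) (l : S × Bool) (y : V) : V × S × V := if l.2 then (x, l.1, y) else (y, l.1, x)

/-- `p = (v, z, s)` is a pass of the edge `f` : the step number `s` of the closed walk which reads `rel z` from `v` is
along `f` -/
def Pass (Γ : LG V S) (rel : Z → List (S × Bool)) (f : V × S × V) (p : V × Z × ℕ) : Prop :=
  Γ.Walk p.1 (rel p.2.1) p.1 ∧ ∃ x y l, (rel p.2.1)[p.2.2]? = some l ∧
    Γ.Walk p.1 ((rel p.2.1).take p.2.2) x ∧ Γ.Step x l y ∧ edg x l y = f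

/-- every edge is passed at least twice -/
def NoFree (Γ : LG V S) (rel : Z → List (S × Bool)) : Prop :=
  ∀ f ∈ Γ.F, ∃ p p', p ≠ p' ∧ Pass Γ rel f p ∧ Pass Γ rel f p'

/-- the polygons : closed walks reading a relator -/
noncomputable def polys [Fintype V] [Fintype Z] (Γ : LG V S) (rel : Z → List (S × Bool)) :
    Finset (V × Z) :=
  Finset.univ.filter fun p => Γ.Walk p.1 (rel p.2) p.1

/-- the vertices which are on an edge -/
noncomputable def supp [Fintype V] (Γ : LG V S) : Finset V :=
  Finset.univ.filter fun v => ∃ e ∈ Γ.F, e.1 = v ∨ e.2.2 = v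

/-- remove an edge -/
noncomputable def del (Γ : LG V S) (f : V × S × V) : LG V S where
  F := Γ.F.erase f
  det h h' := Γ.det (Finset.mem_of_mem_erase h) (Finset.mem_of_mem_erase h')
  cod h h' := Γ.cod (Finset.mem_of_mem_erase h) (Finset.mem_of_mem_erase h')

end poly

/-! ## graphs with partial maps -/

/-- a folded graph with the letters `X` : `av v l` says that the letter `l` is readable at `v`, `nx v l` is the next
vertex -/
structure XG (V X : Type*) where
  av : V → X × Bool → Prop
  nx : V → X × Bool → V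
  back : ∀ v l, av v l → av (nx v l) (linv l) ∧ nx (nx v l) (linv l) = v

namespace XG

variable {V X : Type*}

/-- the number of the letters readable at `v` -/
noncomputable def deg [Fintype X] (Γ : XG V X) (v : V) : ℕ :=
  (Finset.univ.filter fun l => Γ.av v l).card

/-- the number of the long letters at `v` : those which lead to a vertex of degree 2 -/
noncomputable def lng [Fintype X] (Γ : XG V X) (v : V) : ℕ :=
  (Finset.univ.filter fun l => Γ.av v l ∧ Γ.deg (Γ.nx v l) = 2).card

/-- the vertices of the walk which starts at `v` and reads the infinite word `w` -/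
def run (Γ : XG V X) (w : ℕ → X × Bool) (v : V) : ℕ → V
  | 0 => v
  | s + 1 => Γ.nx (Γ.run w v s) (w s)

/-- the list `u` is readable from `v` -/
def RdL (Γ : XG V X) : V → List (X × Bool) → Prop
  | _, [] => True
  | v, l :: u => Γ.av v l ∧ Γ.RdL (Γ.nx v l) u

/-- the first `N` letters of `w` are readable from `v` -/
def Reads (Γ : XG V X) (w : ℕ → X × Bool) (v : V) (N : ℕ) : Prop :=
  ∀ s < N, Γ.av (Γ.run w v s) (w s)

end XG

/-! ## reduced words -/

/-- the reduced words of length `r` which can follow the letter `a` -/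
noncomputable def ext {X : Type*} [Fintype X] : X × Bool → ℕ → Finset (List (X × Bool))
  | _, 0 => {[]}
  | a, r + 1 => (Finset.univ.filter fun b => b ≠ linv a).biUnion fun b =>
      (ext b r).image (List.cons b)

/-- the reduced words of length `K` -/
noncomputable def RW (X : Type*) [Fintype X] : ℕ → Finset (List (X × Bool))
  | 0 => {[]}
  | r + 1 => Finset.univ.biUnion fun b => (ext b r).image (List.cons b)

/-- `A` = set of starting points of walks reading the reduced word `w 0, ..., w (N - 1)`; each reduced word `u` of length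
`K` occurs in it at `τ u`, at distance at least `L` from the end -/
structure Ctx {V X : Type*} [Fintype X] (Γ : XG V X) (w : ℕ → X × Bool) (N : ℕ) (A : Finset V)
    (τ : List (X × Bool) → ℕ) (K L : ℕ) : Prop where
  red : ∀ s, s + 1 < N → w (s + 1) ≠ linv (w s)
  rd : ∀ v ∈ A, Γ.Reads w v N
  win : ∀ u ∈ RW X K, τ u + K + L ≤ N ∧ ∀ r < K, u[r]? = some (w (τ u + r))
  deg2 : ∀ v ∈ A, ∀ s ≤ N, 2 ≤ Γ.deg (Γ.run w v s)

/-- the items `(v, u)` -/
noncomputable def items {V X : Type*} [Fintype X] (A : Finset V) (K : ℕ) :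
    Finset (V × List (X × Bool)) := A ×ˢ RW X K

/-- the items for which the first branch vertex after the beginning of the window is at distance `s` -/
noncomputable def itemsAt {V X : Type*} [Fintype X] (Γ : XG V X) (w : ℕ → X × Bool)
    (A : Finset V) (τ : List (X × Bool) → ℕ) (K s : ℕ) : Finset (V × List (X × Bool)) :=
  (items A K).filter fun i => 3 ≤ Γ.deg (Γ.run w i.1 (τ i.2 + s)) ∧
    ∀ s', 1 ≤ s' → s' < s → Γ.deg (Γ.run w i.1 (τ i.2 + s')) = 2

/-- the items for which the first `D` vertices after the beginning of the window have degree 2 -/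
noncomputable def itemsFar {V X : Type*} [Fintype X] (Γ : XG V X) (w : ℕ → X × Bool)
    (A : Finset V) (τ : List (X × Bool) → ℕ) (K D : ℕ) : Finset (V × List (X × Bool)) :=
  (items A K).filter fun i => ∀ s', 1 ≤ s' → s' ≤ D → Γ.deg (Γ.run w i.1 (τ i.2 + s')) = 2

/-! ## the presentation with the letters `X` and `E` -/

section rib

variable {X E V : Type*}

/-- the relator `W_e t_e⁻¹` -/
def relA (W : E → List (X × Bool)) (e : E) : List ((X ⊕ E) × Bool) :=
  (W e).map (fun l => (Sum.inl l.1, l.2)) ++ [(Sum.inr e, false)]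

/-- the relator `t_e x_j t_e⁻¹ x_i⁻¹` -/
def relB (i j : E → X) (e : E) : List ((X ⊕ E) × Bool) :=
  [(Sum.inr e, true), (Sum.inl (j e), true), (Sum.inr e, false), (Sum.inl (i e), false)]

/-- all relators -/
def relR (W : E → List (X × Bool)) (i j : E → X) : E ⊕ E → List ((X ⊕ E) × Bool) :=
  Sum.elim (relA W) (relB i j)

/-- the `X`-part of a graph -/
noncomputable def xg (Γ : LG V (X ⊕ E)) : XG V X where
  av v l := ∃ v', Γ.Step v (Sum.inl l.1, l.2) v'
  nx v l := if h : ∃ v', Γ.Step v (Sum.inl l.1, l.2) v' then h.choose else v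
  back := by
    rintro v ⟨x, b⟩ h
    have h1 : Γ.Step v (Sum.inl x, b) (if h : ∃ v', Γ.Step v (Sum.inl x, b) v' then h.choose else v) := by
      rw [dif_pos h]
      exact h.choose_spec
    generalize (if h : ∃ v', Γ.Step v (Sum.inl x, b) v' then h.choose else v) = v₁ at h1 ⊢
    have h2 : Γ.Step v₁ (Sum.inl x, !b) v := by
      cases b
      · exact h1
      · exact h1
    refine ⟨⟨v, h2⟩, ?_⟩
    have h3 : ∃ v', Γ.Step v₁ (Sum.inl x, !b) v' := ⟨v, h2⟩
    change (if h : ∃ v', Γ.Step v₁ (Sum.inl x, !b) v' then h.choose else v₁) = v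
    rw [dif_pos h3]
    have h4 := h3.choose_spec
    generalize h3.choose = v₂ at h4
    cases b
    · exact Γ.det h4 h2
    · exact Γ.cod h4 h2

/-- there is a square on the side of `x_i` of the edge `t_e` from `u` to `v` -/
def SqR (Γ : LG V (X ⊕ E)) (i j : E → X) (e : E) (u v : V) : Prop :=
  ∃ u' v', (u, Sum.inl (i e), u') ∈ Γ.F ∧ (v, Sum.inl (j e), v') ∈ Γ.F ∧ (u', Sum.inr e, v') ∈ Γ.F

/-- there is a square on the side of `x_i⁻¹` of the edge `t_e` from `u` to `v` -/
def SqL (Γ : LG V (X ⊕ E)) (i j : E → X) (e : E) (u v : V) : Prop :=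
  ∃ u' v', (u', Sum.inl (i e), u) ∈ Γ.F ∧ (v', Sum.inl (j e), v) ∈ Γ.F ∧ (u', Sum.inr e, v') ∈ Γ.F

/-- the one-sided edges with labels in `E` -/
noncomputable def one (Γ : LG V (X ⊕ E)) (i j : E → X) : Finset (V × (X ⊕ E) × V) :=
  Γ.F.filter fun f => ∃ e, f.2.1 = Sum.inr e ∧
    ((SqR Γ i j e f.1 f.2.2 ∧ ¬ SqL Γ i j e f.1 f.2.2) ∨
      (SqL Γ i j e f.1 f.2.2 ∧ ¬ SqR Γ i j e f.1 f.2.2))

/-- the letters of a word, as an infinite word -/
def lw (W : List (X × Bool)) (d : X × Bool) (s : ℕ) : X × Bool := W.getD s d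

/-- consecutive letters are not inverse to each other -/
def Rdc (u : List (X × Bool)) : Prop :=
  ∀ s a b, u[s]? = some a → u[s + 1]? = some b → b ≠ linv a

/-- the words `W e` are generic -/
structure Gen (W : E → List (X × Bool)) (i j : E → X) (K L : ℕ) : Prop where
  red : ∀ e, Rdc (W e)
  fst : ∀ e l, (W e)[0]? = some l → l.1 ≠ i e
  lst : ∀ e l, (W e)[(W e).length - 1]? = some l → l.1 ≠ j e
  win : ∀ e (u : List (X × Bool)), u.length = K → Rdc u →
    ∃ t, t + K + L ≤ (W e).length ∧ ∀ r < K, u[r]? = (W e)[t + r]?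
  occ : ∀ e e' t t', t + L ≤ (W e).length → t' + L ≤ (W e').length →
    (∀ r < L, (W e)[t + r]? = (W e')[t' + r]?) → e = e' ∧ t = t'
  inv : ∀ e e' t t', t + L ≤ (W e).length → t' + L ≤ (W e').length →
    ¬ ∀ r < L, (W e)[t + r]? = ((W e')[t' + L - 1 - r]?).map linv

/-- generic before stripping -/
structure Gen' (W : E → List (X × Bool)) (K L : ℕ) : Prop where
  red : ∀ e, Rdc (W e)
  win : ∀ e (u : List (X × Bool)), u.length = K → Rdc u →
    ∃ t, L ≤ t ∧ t + K + 2 * L ≤ (W e).length ∧ ∀ r < K, u[r]? = (W e)[t + r]?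
  occ : ∀ e e' t t', t + L ≤ (W e).length → t' + L ≤ (W e').length →
    (∀ r < L, (W e)[t + r]? = (W e')[t' + r]?) → e = e' ∧ t = t'
  inv : ∀ e e' t t', t + L ≤ (W e).length → t' + L ≤ (W e').length →
    ¬ ∀ r < L, (W e)[t + r]? = ((W e')[t' + L - 1 - r]?).map linv

/-- the group `⟨X | x_i W_e = W_e x_j⟩` -/
abbrev Grp (W : E → List (X × Bool)) (i j : E → X) : Type _ :=
  PresentedGroup (Set.range fun e : E =>
    FreeGroup.of (i e) * FreeGroup.mk (W e) * (FreeGroup.of (j e))⁻¹ * (FreeGroup.mk (W e))⁻¹)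

end rib

end Pool.Agent.RibLI
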